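import Pool.Agent.Helper80.MMP.Theory

/-!
# Push-forward of divisors and the plane
-/

set_option autoImplicit false

namespace Pool.Agent.Helper80.MMP

variable {G : Geometry}

/-! ### Divisors -/

theorem clB_total {X : G.Var} {c : ℕ} (H : Fin c → G.Prm X) :
    G.clB (G.total H) = ∑ i, G.cl (H i) := by
  classical
  unfold Geometry.clB Geometry.total
  rw [← Finsupp.sum_finsetSum_index]
  · refine Finset.sum_congr rfl fun i _ => ?_
    rw [Finsupp.sum_single_index]
    · simp
    · simp
  · intro P; simp
  · intro P a b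
    simp only [NNRat.cast_add, Rat.cast_add, add_smul]

theorem total_apply {X : G.Var} {c : ℕ} {H : Fin c → G.Prm X} (hH : Function.Injective H)
    (j : Fin c) : G.total H (H j) = 1 := by
  classical
  unfold Geometry.total
  rw [Finsupp.finsetSum_apply, Finset.sum_eq_single j]
  · simp
  · intro i _ hij
    rw [Finsupp.single_apply, if_neg]
    intro h
    exact hij (hH h)
  · simp

theorem pushB_total {X X' : G.Var} (e : G.Step X X') {c : ℕ} {H : Fin c → G.Prm X}
    {H' : Fin c → G.Prm X'} (h : ∀ i, G.pushP e (H i) = some (H' i)) :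
    G.pushB e (G.total H) = G.total H' := by
  classical
  unfold Geometry.pushB Geometry.total
  rw [← Finsupp.sum_finsetSum_index]
  · refine Finset.sum_congr rfl fun i _ => ?_
    rw [Finsupp.sum_single_index]
    · rw [h i]; rfl
    · rw [h i]; simp
  · intro P
    cases G.pushP e P <;> simp
  · intro P a b
    cases G.pushP e P <;> simp

theorem disc_total {X : G.Var} (v : G.Val X) {c : ℕ} {H : Fin c → G.Prm X}
    (h : ∀ i, G.ordV v (H i) = 1) : G.disc v (G.total H) = G.discV v - c := by
  classical
  unfold Geometry.disc Geometry.total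
  rw [← Finsupp.sum_finsetSum_index]
  · rw [Finset.sum_congr rfl (g := fun _ => (1 : ℚ))]
    · simp
    · intro i _
      rw [Finsupp.sum_single_index]
      · rw [h i]; simp
      · simp
  · intro P; simp
  · intro P a b
    push_cast; ring

theorem push_clB (hT : Textbook G) {X X' : G.Var} (e : G.Step X X')
    (Δ : G.Bd X) : G.clB (G.pushB e Δ) = G.push e (G.clB Δ) := by
  classical
  unfold Geometry.clB Geometry.pushB
  rw [Finsupp.sum_sum_index]
  · rw [Finsupp.sum, Finsupp.sum, map_sum]
    refine Finset.sum_congr rfl fun P _ => ?_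
    rw [map_smul]
    cases hP : G.pushP e P with
    | none => rw [hT.step_none e hP]; simp
    | some P' =>
      rw [hT.step_some e hP]
      simp
  · intro P; simp
  · intro P a b
    simp only [NNRat.cast_add, Rat.cast_add, add_smul]

theorem push_KB (hT : Textbook G) {X X' : G.Var} (e : G.Step X X')
    (Δ : G.Bd X) : G.KB (G.pushB e Δ) = G.push e (G.KB Δ) := by
  unfold Geometry.KB
  rw [push_clB hT, map_add, hT.step_K]

/-- Push-forward of divisors with coefficients in `M`. -/
noncomputable def pushF {M : Type} [AddCommMonoid M] {X X' : G.Var} (e : G.Step X X')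
    (N : G.Prm X →₀ M) : G.Prm X' →₀ M :=
  N.sum fun P q => (G.pushP e P).elim 0 fun P' => Finsupp.single P' q

theorem pushF_apply (hT : Textbook G) {M : Type} [AddCommMonoid M] {X X' : G.Var}
    (e : G.Step X X') (N : G.Prm X →₀ M) {P : G.Prm X} {P' : G.Prm X'}
    (h : G.pushP e P = some P') : pushF e N P' = N P := by
  classical
  unfold pushF
  rw [Finsupp.sum_apply, Finsupp.sum]
  by_cases hP : P ∈ N.support
  · rw [Finset.sum_eq_single P]
    · rw [h]; simp
    · intro Q _ hQ
      cases hQ' : G.pushP e Q with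
      | none => simp
      | some Q' =>
        simp only [Option.elim_some]
        rw [Finsupp.single_apply, if_neg]
        intro h'
        rw [h'] at hQ'
        exact hQ (hT.step_inj e hQ' h)
    · intro h'; exact absurd hP h'
  · have h0 : N P = 0 := by simpa using hP
    rw [h0]
    refine Finset.sum_eq_zero fun Q hQ => ?_
    cases hQ' : G.pushP e Q with
    | none => simp
    | some Q' =>
      simp only [Option.elim_some]
      rw [Finsupp.single_apply, if_neg]
      intro h'
      rw [h'] at hQ'
      exact hP ((hT.step_inj e hQ' h) ▸ hQ)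

theorem exists_of_mem_support {M : Type} [AddCommMonoid M] {X X' : G.Var}
    (e : G.Step X X') (N : G.Prm X →₀ M) {P' : G.Prm X'} (h : P' ∈ (pushF e N).support) :
    ∃ P ∈ N.support, G.pushP e P = some P' := by
  classical
  by_contra hcon
  push Not at hcon
  rw [Finsupp.mem_support_iff] at h
  apply h
  unfold pushF
  rw [Finsupp.sum_apply, Finsupp.sum]
  refine Finset.sum_eq_zero fun Q hQ => ?_
  cases hQ' : G.pushP e Q with
  | none => simp
  | some Q' =>
    simp only [Option.elim_some]
    rw [Finsupp.single_apply, if_neg]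
    intro h'
    rw [h'] at hQ'
    exact hcon Q hQ hQ'

theorem pushB_apply (hT : Textbook G) {X X' : G.Var} (e : G.Step X X') (Δ : G.Bd X)
    {P : G.Prm X} {P' : G.Prm X'} (h : G.pushP e P = some P') : G.pushB e Δ P' = Δ P :=
  pushF_apply hT e Δ h

/-! ### The plane -/

/-- Two extremal rays of a cone in a plane generate it: if two classes `a` and `L` span `N^1`,
`R L < 0 < γ L`, and `a` is non-positive on both, then `a` is non-positive on the cone. -/
theorem plane (hT : Textbook G) {X : G.Var} {a L : G.N1 X} (hspan : ∀ c, ∃ x y : ℝ,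
    c = x • a + y • L) {R γ : G.N1 X →ₗ[ℝ] ℝ} (hR : G.Extremal R) (hγ : G.Extremal γ)
    (hRL : R L < 0) (hγL : 0 < γ L) (hRa : R a ≤ 0) (hγa : γ a ≤ 0) : G.Nef (-a) := by
  obtain ⟨A, hA⟩ := hT.ample X
  have hRA := hA R hR.1 hR.2.1
  have hγA := hA γ hγ.1 hγ.2.1
  have ext : ∀ {f g : G.N1 X →ₗ[ℝ] ℝ}, f a = g a → f L = g L → f = g := by
    intro f g h1 h2
    apply LinearMap.ext
    intro c
    obtain ⟨x, y, rfl⟩ := hspan c
    simp [h1, h2]
  -- the determinant is negative
  have hdet : R a * γ L - γ a * R L < 0 := by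
    have h1 : R a * γ L ≤ 0 := mul_nonpos_of_nonpos_of_nonneg hRa hγL.le
    have h2 : 0 ≤ γ a * R L := mul_nonneg_of_nonpos_of_nonpos hγa hRL.le
    rcases lt_or_eq_of_le hRa with h | h
    · have := mul_neg_of_neg_of_pos h hγL
      linarith
    · rcases lt_or_eq_of_le hγa with h' | h'
      · have := mul_pos_of_neg_of_neg h' hRL
        linarith
      · exfalso
        -- then `γ L • R = R L • γ`, against the ample class
        have : (γ L) • R = (R L) • γ := by
          apply ext
          · simp [h, h']
          · simp [mul_comm]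
        have h3 := congrArg (fun f : G.N1 X →ₗ[ℝ] ℝ => f A) this
        simp only [LinearMap.smul_apply, smul_eq_mul] at h3
        nlinarith [mul_pos hγL hRA, mul_pos_of_neg_of_neg hRL (neg_lt_zero.mpr hγA)]
  intro ξ hξ
  have hξA : 0 ≤ ξ A := by
    by_cases h : ξ = 0
    · simp [h]
    · exact (hA ξ hξ h).le
  -- write `ξ = x R + y γ`
  set D : ℝ := R a * γ L - γ a * R L with hD
  have hD0 : D ≠ 0 := hdet.ne
  obtain ⟨x, y, hxy⟩ : ∃ x y : ℝ, ξ = x • R + y • γ := by
    refine ⟨(ξ a * γ L - γ a * ξ L) / D, (R a * ξ L - ξ a * R L) / D, ?_⟩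
    apply ext
    · simp only [LinearMap.add_apply, LinearMap.smul_apply, smul_eq_mul]
      field_simp
      rw [hD]; ring
    · simp only [LinearMap.add_apply, LinearMap.smul_apply, smul_eq_mul]
      field_simp
      rw [hD]; ring
  have hx : 0 ≤ x := by
    by_contra hx
    push Not at hx
    by_cases hy : y ≤ 0
    · have h4 : ξ A = x * R A + y * γ A := by rw [hxy]; simp
      nlinarith [mul_pos_of_neg_of_neg hx (neg_lt_zero.mpr hRA),
        mul_nonneg_of_nonpos_of_nonpos hy (neg_lt_zero.mpr hγA).le]
    · push Not at hy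
      -- `γ = y⁻¹ ξ + (-x / y) R`
      have h5 : (-x / y) • R + y⁻¹ • ξ = γ := by
        rw [hxy]
        apply LinearMap.ext
        intro c
        simp only [LinearMap.add_apply, LinearMap.smul_apply, smul_eq_mul]
        field_simp
        ring
      obtain ⟨t, ht, h6⟩ := hγ.2.2 _ (hT.ne_smul (div_nonneg (neg_nonneg.mpr hx.le) hy.le) hR.1)
        _ (hT.ne_smul (inv_nonneg.mpr hy.le) hξ) h5
      have h7 := congrArg (fun f : G.N1 X →ₗ[ℝ] ℝ => f L) h6
      simp only [LinearMap.smul_apply, smul_eq_mul] at h7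
      have h8 : 0 < -x / y := div_pos (neg_pos.mpr hx) hy
      nlinarith [mul_pos_of_neg_of_neg hRL (neg_lt_zero.mpr h8), mul_nonneg ht hγL.le]
  have hy : 0 ≤ y := by
    by_contra hy
    push Not at hy
    rcases lt_or_eq_of_le hx with hx' | hx'
    · have h5 : (-y / x) • γ + x⁻¹ • ξ = R := by
        rw [hxy]
        apply LinearMap.ext
        intro c
        simp only [LinearMap.add_apply, LinearMap.smul_apply, smul_eq_mul]
        field_simp
        ring
      obtain ⟨t, ht, h6⟩ := hR.2.2 _ (hT.ne_smul (div_nonneg (neg_nonneg.mpr hy.le) hx) hγ.1)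
        _ (hT.ne_smul (inv_nonneg.mpr hx) hξ) h5
      have h7 := congrArg (fun f : G.N1 X →ₗ[ℝ] ℝ => f L) h6
      simp only [LinearMap.smul_apply, smul_eq_mul] at h7
      have h8 : 0 < -y / x := div_pos (neg_pos.mpr hy) hx'
      nlinarith [mul_pos h8 hγL, mul_nonneg ht (neg_pos.mpr hRL).le]
    · have h4 : ξ A = x * R A + y * γ A := by rw [hxy]; simp
      rw [← hx'] at h4
      nlinarith [mul_pos_of_neg_of_neg hy (neg_lt_zero.mpr hγA)]
  have : ξ (-a) = - (x * R a + y * γ a) := by rw [hxy]; simp; ring
  rw [this]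
  nlinarith [mul_nonneg hx (neg_nonneg.mpr hRa), mul_nonneg hy (neg_nonneg.mpr hγa)]

end Pool.Agent.Helper80.MMP
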