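import Pool.Agent.Helper80.MMP.Rational

/-!
# Log canonical pairs over `ℂ` and isolated points of rational varieties over `ℚ`

`K e` is the geometry of varieties over an algebraically closed subfield `k_e` of `ℂ` of
transcendence degree `e` over `ℚ`; in particular `k_0` is the field of algebraic numbers.  `G` is
the geometry over `ℂ`.
-/

set_option autoImplicit false

namespace Pool.Agent.Helper80.MMP

/-- The data that relate varieties over `ℂ`, over the fields `k_e`, and over `ℚ`. -/
structure FieldData (G : Geometry) where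
  /-- Varieties over an algebraically closed subfield `k_e` of `ℂ` of transcendence degree
  `e`. -/
  K : ℕ → Geometry
  /-- Rational varieties, smooth and disjoint prime divisors over `k_0`. -/
  D : RationalData (K 0)
  /-- The pair over `k_0` is the base change of a pair `(Y, Δ)` over `ℚ`, where `Y` is a smooth
  projective variety over `ℚ` with function field `ℚ(x_1, …, x_m)`. -/
  OverQ : ∀ Y : (K 0).Var, (K 0).Bd Y → Prop
  /-- The complex pair is the base change of a pair over a subfield of transcendence degree at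
  most `e`. -/
  Def : ∀ X : G.Var, G.Bd X → ℕ → Prop
  /-- `Fam e W T V`: morphisms `f : W → T` of smooth projective varieties over `k_0`, with
  connected fibres, such that `T` has dimension `e` and `V` is the fibre over a `k_e`-valued point
  of `T` that is mapped to the generic point of `T`. -/
  Fam : ∀ e : ℕ, (K 0).Var → (K 0).Var → (K e).Var → Type
  /-- Restriction of numerical classes of high models of `W` to high models of `V`. -/
  rest : ∀ {e : ℕ} {W T : (K 0).Var} {V : (K e).Var}, Fam e W T V →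
    ((K 0).B W →ₗ[ℝ] (K e).B V)

/-- `(Y, Δ)` is a point pair: `Y` is a smooth rational variety, `Δ = S_1 + ⋯ + S_r + B`, `r ≥ 1`,
with pairwise disjoint smooth prime divisors, the class `K + Δ` is big, `B` is nef,
`S_1 + ⋯ + S_r` is negative on all non-zero classes of the closed cone of curves that are zero on
`B`, and all `(K + Δ)`-negative extremal rays are zero on `B`.

So a multiple of `B` is base point free and contracts exactly the `S_i`, to points `p_i` of a
rational variety `Y*`, and the program of `(Y, Δ)` starts over these points.  (If the pair is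
defined over `ℚ`, the `S_i` can be conjugate.) -/
def PointPair {G : Geometry} (D : RationalData G) (Y : G.Var) (Δ : G.Bd Y) : Prop :=
  G.Smooth Y ∧ D.Rational Y ∧ G.Big (G.KB Δ) ∧
    ∃ (r : ℕ) (S : Fin (r + 1) → G.Prm Y) (B : G.Prm Y),
      (∀ i, D.SmoothPrm (S i)) ∧ D.SmoothPrm B ∧ (∀ i j, i ≠ j → D.Apart (S i) (S j)) ∧
      (∀ i, D.Apart (S i) B) ∧ Δ = G.total S + Finsupp.single B 1 ∧ G.Nef (G.cl B) ∧
      (∀ γ ∈ G.NE Y, γ ≠ 0 → γ (G.cl B) = 0 → γ (G.clB (G.total S)) < 0) ∧
      ∀ γ, G.Extremal γ → γ (G.KB Δ) < 0 → γ (G.cl B) = 0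

/-- Facts on fields of definition. -/
structure FieldFacts (G : Geometry) (F : FieldData G) : Prop where
  /-- Smooth varieties are Kawamata log terminal. -/
  smooth_klt : ∀ {X : (F.K 0).Var}, (F.K 0).Smooth X → (F.K 0).Klt X
  /-- Ample classes are pseudo-effective, so big classes are. -/
  big_pseff : ∀ {X : (F.K 0).Var} {c : (F.K 0).N1 X}, (F.K 0).Big c → c ∈ (F.K 0).Pseff X
  /-- Log smooth pairs are log canonical. -/
  lc : ∀ {Y : (F.K 0).Var} {Δ : (F.K 0).Bd Y}, PointPair F.D Y Δ → (F.K 0).Lc Y Δ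
  /-- The exceptional locus of a step is a proper closed subset. -/
  comp_dim : ∀ {X X' : (F.K 0).Var} (e : (F.K 0).Step X X') {T : (F.K 0).Sub X},
    (F.K 0).Comp e T → (F.K 0).sdim T < (F.K 0).dim X
  /-- A smooth projective variety `W` of dimension `m ≥ 1` over `k_0` is defined over a number
  field, say as the variety `W_0` over the number field `E`.  As a variety over `ℚ`, which is
  integral, `W_0` is birational to a hypersurface of `ℙ^(m+1)` over `ℚ` (theorem of the primitive
  element).  By Hironaka there are blow-ups with smooth centres `Y' → ℙ^(m+1)`, over `ℚ`, such that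
  the strict transform `S'` of the hypersurface is smooth and has a birational morphism to
  `W_0`; over `k_0` it is a disjoint union of conjugate varieties, one of which is birational to
  `W`.  Let `A` be very ample on `Y'`, `n` large, `H` a general member of `|nA + S'|`,
  `π : Y → Y'` the blowing-up of `S' ∩ H`, and `S` the strict transform of `S'`.  The class
  `P = n π^* A + S` is the class of the strict transform of `H`, which is disjoint from `S`; so
  `P` is base point free, big, and trivial on `S`.  If `P.γ = 0` then `S.γ = - n π^* A.γ ≤ 0`, and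
  `S.γ = 0` only if `π^* A.γ = 0`, hence `γ` is in the closed cone of the fibres of `π`, on which
  `S` is positive, and `γ = 0`.  Let `B` be a general member of `|lP|`, `l` large.  All this is
  over `ℚ`, and `B` is geometrically irreducible and disjoint from `S`.  The restriction of
  `K_Y + S + B` to the component of `S` that is birational to `W` is its canonical class. -/
  model : ∀ {W : (F.K 0).Var}, (F.K 0).Smooth W → 1 ≤ (F.K 0).dim W →
    ∃ (Y : (F.K 0).Var) (Δ : (F.K 0).Bd Y) (s : (F.K 0).Mark W Y), PointPair F.D Y Δ ∧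
      F.OverQ Y Δ ∧ (F.K 0).dim Y = (F.K 0).dim W + 1 ∧
      ∃ T ∈ (F.K 0).bExc W, (F.K 0).toB W ((F.K 0).K W) = (F.K 0).res s ((F.K 0).KB Δ) + T
  /-- Kawamata 1991, Theorem 1: the components of the exceptional locus are uniruled. -/
  kawamata : ∀ {X X' : (F.K 0).Var} (e : (F.K 0).Step X X') {Δ : (F.K 0).Bd X}
    {T : (F.K 0).Sub X}, (F.K 0).Klt X → (F.K 0).Lc X Δ → (F.K 0).ray e ((F.K 0).KB Δ) < 0 →
    (F.K 0).Comp e T → (F.K 0).SUniruled T
  /-- Spreading out.  A smooth projective variety `V` over `k_e` is defined over a subfield `L` of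
  transcendence degree `e`, finitely generated over `k_0`; it is the generic fibre of a family
  over a smooth projective variety `T` with function field `L`.  After replacing `L` by a finite
  extension in `k_e`, `T` is a smooth variety of general type, so not uniruled; resolve the
  total space of a compactification. -/
  spread : ∀ {e : ℕ} {V : (F.K e).Var}, (F.K e).Smooth V →
    ∃ (W T : (F.K 0).Var) (_ : F.Fam e W T V), (F.K 0).Smooth W ∧ ¬ (F.K 0).Uniruled T ∧
      (F.K 0).dim W = (F.K e).dim V + e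
  /-- If `W` is uniruled and `T` is not, the rational curves through general points of `W` lie in
  fibres, and `V` is uniruled. -/
  fam_uniruled : ∀ {e : ℕ} {W T : (F.K 0).Var} {V : (F.K e).Var}, F.Fam e W T V →
    (F.K 0).Uniruled W → (F.K 0).Uniruled T ∨ (F.K e).Uniruled V
  /-- Restriction to the generic fibre: the canonical class, nef and effective classes. -/
  rest_K : ∀ {e : ℕ} {W T : (F.K 0).Var} {V : (F.K e).Var} (f : F.Fam e W T V),
    F.rest f ((F.K 0).toB W ((F.K 0).K W)) = (F.K e).toB V ((F.K e).K V)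
  rest_nef : ∀ {e : ℕ} {W T : (F.K 0).Var} {V : (F.K e).Var} (f : F.Fam e W T V) {c : (F.K 0).B W},
    c ∈ (F.K 0).bNef W → F.rest f c ∈ (F.K e).bNef V
  rest_eff : ∀ {e : ℕ} {W T : (F.K 0).Var} {V : (F.K e).Var} (f : F.Fam e W T V) {c : (F.K 0).B W},
    c ∈ (F.K 0).bEff W → F.rest f c ∈ (F.K e).bEff V
  /-- Minimal models of smooth varieties of dimension at most three (Mori 1988). -/
  threefolds : ∀ {e : ℕ} {V : (F.K e).Var}, (F.K e).Smooth V → (F.K e).dim V ≤ 3 →
    (F.K e).K V ∈ (F.K e).Pseff V → (F.K e).WeakZariski V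
  /-- The canonical class of a smooth uniruled variety is not pseudo-effective. -/
  uni_K : ∀ {e : ℕ} {V : (F.K e).Var}, (F.K e).Smooth V → (F.K e).Uniruled V →
    (F.K e).K V ∉ (F.K e).Pseff V
  /-- Lazić and Tsakanikas 2022, Hashizume and Hu 2020, see `Published.reduction`. -/
  reduction : ∀ e n : ℕ,
    (∀ V : (F.K e).Var, (F.K e).Smooth V → (F.K e).dim V ≤ n →
      (F.K e).K V ∈ (F.K e).Pseff V → (F.K e).WeakZariski V) →
    ∀ (X : (F.K e).Var) (Δ : (F.K e).Bd X), (F.K e).dim X ≤ n → (F.K e).Lc X Δ →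
      (F.K e).KB Δ ∈ (F.K e).Pseff X → (F.K e).Q1 X Δ
  /-- Birkar 2012, Hacon and Xu 2013, Hashizume and Hu 2020, see `Published.mori`. -/
  mori : ∀ (e : ℕ) (X : (F.K e).Var) (Δ : (F.K e).Bd X), (F.K e).Lc X Δ →
    (F.K e).KB Δ ∉ (F.K e).Pseff X → (F.K e).Q1 X Δ
  /-- A complex pair is defined over a finitely generated field. -/
  exists_def : ∀ (X : G.Var) (Δ : G.Bd X), ∃ e, F.Def X Δ e
  /-- Base change to `ℂ`.  A complex log canonical pair that is defined over a field of
  transcendence degree at most `e` is the base change of a pair over `k_e`, after applying an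
  automorphism of `ℂ`, and the base change of a program is a program. -/
  up : ∀ {X : G.Var} {Δ : G.Bd X} {e : ℕ}, G.Lc X Δ → F.Def X Δ e →
    ∃ (X₀ : (F.K e).Var) (Δ₀ : (F.K e).Bd X₀), (F.K e).Lc X₀ Δ₀ ∧ (F.K e).dim X₀ = G.dim X ∧
      ((F.K e).Q1 X₀ Δ₀ → G.Q1 X Δ)
  /-- Descent from `ℂ`: the base change of a pair over `k_0` has the same spaces `N^1` and cones
  of curves, and its program is the base change of a program over `k_0`. -/
  down : ∀ {Y : (F.K 0).Var} {Δ : (F.K 0).Bd Y}, (F.K 0).Lc Y Δ →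
    ∃ (X : G.Var) (Δ' : G.Bd X), G.Lc X Δ' ∧ (G.Q1 X Δ' → (F.K 0).Q1 Y Δ)

variable {G : Geometry} {F : FieldData G}

/-- A non-uniruled variety that is (birationally) a prime divisor of `X` survives along every
program over `k_0`, and the restriction of the log canonical class decomposes. -/
theorem divisor_decomposition_field (hT : Textbook (F.K 0)) (hM : MarkFacts (F.K 0))
    (hF : FieldFacts G F) {V : (F.K 0).Var} (hV : ¬ (F.K 0).Uniruled V)
    {X X' : (F.K 0).Var} {Δ : (F.K 0).Bd X} {Δ' : (F.K 0).Bd X'} (r : (F.K 0).Run X Δ X' Δ')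
    (hfin : (F.K 0).Nef ((F.K 0).KB Δ') ∨ ∃ f : (F.K 0).Fib X', (F.K 0).AntiAmple f
      ((F.K 0).KB Δ')) :
    ∀ s : (F.K 0).Mark V X, (F.K 0).dim X = (F.K 0).dim V + 1 → (F.K 0).Klt X →
      (F.K 0).Lc X Δ → (F.K 0).KB Δ ∈ (F.K 0).Pseff X →
      ∃ P ∈ (F.K 0).bNef V, ∃ E ∈ (F.K 0).bEff V, (F.K 0).res s ((F.K 0).KB Δ) = P + E := by
  induction r with
  | refl X Δ =>
    intro s _ _ _ hps
    rcases hfin with hn | ⟨f, hf⟩
    · exact ⟨_, hM.mark_nef s hn, 0, hM.bEff_zero V, by rw [add_zero]⟩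
    · exfalso
      obtain ⟨γ, hγ, hγ0, hγL⟩ := hT.fib_curve f hps
      exact absurd (hf γ hγ hγ0) (not_lt.mpr hγL)
  | @cons X X₁ X' Δ Δ' e neg r ih =>
    intro s hdim hklt hlc hps
    have hloc : ∀ T, (F.K 0).Comp e T → ¬ (F.K 0).le ((F.K 0).im s) T := by
      intro T hTc hle
      have h1 := hF.comp_dim e hTc
      have h2 : (F.K 0).sdim T ≤ (F.K 0).sdim ((F.K 0).im s) := by rw [hM.mark_dim]; omega
      have hST := hT.sub_eq hle h2
      apply hV
      apply hM.mark_uni s
      rw [hST]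
      exact hF.kawamata e hklt hlc neg hTc
    obtain ⟨s', -, hres⟩ := hM.mark_step e s hloc
    obtain ⟨P, hPn, E, hE, heq⟩ := ih hfin s' (by rw [hT.step_dim e, hdim])
      (hT.step_klt e hklt hlc neg) (hT.step_lc e hlc neg)
      (by rw [push_KB hT]; exact hT.step_pseff e hps)
    have hd := hres ((F.K 0).KB Δ) neg.le
    rw [← push_KB hT] at hd
    refine ⟨P, hPn, _, hM.bEff_add hE hd, ?_⟩
    rw [← add_assoc, ← heq]
    abel

/-- Weak Zariski decompositions over `k_0`, from the point pairs over `ℚ`. -/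
theorem weakZariski_over_kzero (hT : Textbook (F.K 0)) (hM : MarkFacts (F.K 0))
    (hF : FieldFacts G F) {W : (F.K 0).Var} (hsm : (F.K 0).Smooth W) (h1 : 1 ≤ (F.K 0).dim W)
    (hW : ¬ (F.K 0).Uniruled W)
    (hQ : ∀ (Y : (F.K 0).Var) (Δ : (F.K 0).Bd Y), (F.K 0).dim Y = (F.K 0).dim W + 1 →
      PointPair F.D Y Δ → F.OverQ Y Δ → (F.K 0).Q1 Y Δ) : (F.K 0).WeakZariski W := by
  obtain ⟨Y, Δ, s, hY, hYQ, hdim, T, hT', hres⟩ := hF.model hsm h1
  obtain ⟨X', Δ', hrun, _, hfin⟩ := hQ Y Δ hdim hY hYQ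
  obtain ⟨P, hPn, E, hE, heq⟩ := divisor_decomposition_field hT hM hF hW hrun hfin s hdim
    (hF.smooth_klt hY.1) (hF.lc hY) (hF.big_pseff hY.2.2.1)
  have hfinal : (F.K 0).toB W ((F.K 0).K W) = P + E + T := by rw [hres, heq]
  exact ⟨P, hPn, E + T, hM.negativity hPn hE hT' hfinal, by rw [hfinal]; abel⟩

/-- Weak Zariski decompositions over `k_e`, from those of total spaces over `k_0`. -/
theorem weakZariski_over_k (hT : Textbook (F.K 0)) (hM : MarkFacts (F.K 0))
    (hF : FieldFacts G F) {e : ℕ} {V : (F.K e).Var} (hsm : (F.K e).Smooth V)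
    (h1 : 1 ≤ (F.K e).dim V) (hK : (F.K e).K V ∈ (F.K e).Pseff V)
    (hQ : ∀ (Y : (F.K 0).Var) (Δ : (F.K 0).Bd Y), (F.K 0).dim Y = (F.K e).dim V + e + 1 →
      PointPair F.D Y Δ → F.OverQ Y Δ → (F.K 0).Q1 Y Δ) : (F.K e).WeakZariski V := by
  have hV : ¬ (F.K e).Uniruled V := fun h => hF.uni_K hsm h hK
  obtain ⟨W, T, f, hWs, hTu, hdim⟩ := hF.spread hsm
  have hWu : ¬ (F.K 0).Uniruled W := by
    intro h
    rcases hF.fam_uniruled f h with h' | h'
    · exact hTu h'
    · exact hV h'
  obtain ⟨P, hP, E, hE, heq⟩ := weakZariski_over_kzero hT hM hF hWs (by omega) hWu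
    fun Y Δ hY => hQ Y Δ (by omega)
  refine ⟨F.rest f P, hF.rest_nef f hP, F.rest f E, hF.rest_eff f hE, ?_⟩
  rw [← hF.rest_K f, heq, map_add]

/-- **the main theorem** -/
theorem fields_main (hT : Textbook (F.K 0)) (hM : MarkFacts (F.K 0)) (hF : FieldFacts G F) :
    (∀ n e : ℕ,
      (∀ (Y : (F.K 0).Var) (Δ : (F.K 0).Bd Y), (F.K 0).dim Y ≤ n + e + 1 →
        PointPair F.D Y Δ → F.OverQ Y Δ → (F.K 0).Q1 Y Δ) →
      ∀ (X : G.Var) (Δ : G.Bd X), G.dim X ≤ n → F.Def X Δ e → G.Lc X Δ → G.Q1 X Δ) ∧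
    ((∀ (X : G.Var) (Δ : G.Bd X), G.Lc X Δ → G.Q1 X Δ) ↔
      ∀ (Y : (F.K 0).Var) (Δ : (F.K 0).Bd Y), PointPair F.D Y Δ → F.OverQ Y Δ →
        (F.K 0).Q1 Y Δ) := by
  have key : ∀ n e : ℕ,
      (∀ (Y : (F.K 0).Var) (Δ : (F.K 0).Bd Y), (F.K 0).dim Y ≤ n + e + 1 →
        PointPair F.D Y Δ → F.OverQ Y Δ → (F.K 0).Q1 Y Δ) →
      ∀ (X : G.Var) (Δ : G.Bd X), G.dim X ≤ n → F.Def X Δ e → G.Lc X Δ → G.Q1 X Δ := by
    intro n e h X Δ hn hdef hlc
    obtain ⟨X₀, Δ₀, hlc₀, hdim, hup⟩ := hF.up hlc hdef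
    refine hup ?_
    by_cases hps : (F.K e).KB Δ₀ ∈ (F.K e).Pseff X₀
    · refine hF.reduction e n ?_ X₀ Δ₀ (by omega) hlc₀ hps
      intro V hsm hVn hK
      by_cases h3 : (F.K e).dim V ≤ 3
      · exact hF.threefolds hsm h3 hK
      · exact weakZariski_over_k hT hM hF hsm (by omega) hK
          fun Y Δ hY => h Y Δ (by omega)
    · exact hF.mori e X₀ Δ₀ hlc₀ hps
  refine ⟨key, fun h Y Δ hY _ => ?_, fun h X Δ hlc => ?_⟩
  · obtain ⟨X, Δ', hlc, hdown⟩ := hF.down (hF.lc hY)
    exact hdown (h X Δ' hlc)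
  · obtain ⟨e, he⟩ := hF.exists_def X Δ
    exact key (G.dim X) e (fun Y Δ _ => h Y Δ) X Δ le_rfl he hlc

end Pool.Agent.Helper80.MMP
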