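import Pool.Agent.Helper80.MMP.Basic

/-!
# Log resolutions of isolated singularities of rational varieties
-/

set_option autoImplicit false

namespace Pool.Agent.Helper80.MMP

/-- Further data: rational varieties, smooth prime divisors, disjoint prime divisors. -/
structure RationalData (G : Geometry) where
  /-- `X` is rational. -/
  Rational : G.Var → Prop
  /-- A prime divisor is smooth. -/
  SmoothPrm : ∀ {X : G.Var}, G.Prm X → Prop
  /-- Two prime divisors have no common point. -/
  Apart : ∀ {X : G.Var}, G.Prm X → G.Prm X → Prop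

/-- `(Y, Δ)` is a rational point pair: `Y` is a smooth rational variety, `Δ = S + B` with
disjoint smooth prime divisors `S` and `B`, the class `K + Δ` is big, `B` is nef, `S` is negative
on all non-zero classes of the closed cone of curves that are zero on `B`, and all
`(K + Δ)`-negative extremal rays are zero on `B`.

So a multiple `|lB|` is base point free (Zariski and Fujita) and contracts exactly `S`, to a
point `p` of a rational variety `Y*`; the program of `(Y, Δ)` starts over `Y*`, that is, it
modifies the resolution `Y → Y*` of `p`, whose exceptional divisor `S` is smooth and irreducible,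
and does not touch `B`, which is a hyperplane section of `Y*` that does not contain `p`. -/
def RationalPair {G : Geometry} (D : RationalData G) (Y : G.Var) (Δ : G.Bd Y) : Prop :=
  G.Smooth Y ∧ D.Rational Y ∧ G.Big (G.KB Δ) ∧
    ∃ S B : G.Prm Y, D.SmoothPrm S ∧ D.SmoothPrm B ∧ D.Apart S B ∧
      Δ = Finsupp.single S 1 + Finsupp.single B 1 ∧ G.Nef (G.cl B) ∧
      (∀ γ ∈ G.NE Y, γ ≠ 0 → γ (G.cl B) = 0 → γ (G.cl S) < 0) ∧
      ∀ γ, G.Extremal γ → γ (G.KB Δ) < 0 → γ (G.cl B) = 0

/-- Facts on rational varieties. -/
structure RationalFacts (G : Geometry) (D : RationalData G) : Prop where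
  smooth_klt : ∀ {X : G.Var}, G.Smooth X → G.Klt X
  /-- Ample classes are pseudo-effective, so big classes are. -/
  big_pseff : ∀ {X : G.Var} {c : G.N1 X}, G.Big c → c ∈ G.Pseff X
  /-- Log smooth pairs are log canonical. -/
  lc : ∀ {Y : G.Var} {Δ : G.Bd Y}, RationalPair D Y Δ → G.Lc Y Δ
  /-- Rational varieties of positive dimension are uniruled. -/
  uniruled : ∀ {Y : G.Var}, 1 ≤ G.dim Y → D.Rational Y → G.Uniruled Y
  /-- The exceptional locus of a step is a proper closed subset. -/
  comp_dim : ∀ {X X' : G.Var} (e : G.Step X X') {T : G.Sub X}, G.Comp e T → G.sdim T < G.dim X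
  /-- Let `V` be smooth of dimension `n ≥ 1`.  It is birational to a hypersurface of `ℙ^(n+1)`.
  By Hironaka there are blow-ups with smooth centres `Y' → ℙ^(n+1)` such that the strict
  transform `S'` of the hypersurface is smooth and has a birational morphism to `V`.  Let `A` be
  very ample on `Y'`, `m` large, `G` a general member of `|mA + S'|`, `π : Y → Y'` the blowing-up
  of `S' ∩ G`, and `S` the strict transform of `S'`.  The class `P = m π^* A + S` is the class of
  the strict transform of `G`, which is disjoint from `S`; so `P` is base point free, big, and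
  trivial on `S`.  If `P.γ = 0` then `S.γ = - m π^* A.γ ≤ 0`, and `S.γ = 0` only if `π^* A.γ = 0`,
  hence `γ` is a multiple of the class of the fibres of `π`, on which `S` is positive, and
  `γ = 0`.  Let `B` be a general member of `|lP|`, `l` large: it is smooth, irreducible (as
  `dim Y ≥ 2`), disjoint from `S`, and the class `K_Y + S + B` is big.  An extremal ray that is
  negative on `K_Y + S + B` is negative on `K_Y + S`, so it contains a curve `C` with
  `-(K_Y + S).C ≤ 2 dim Y` (Kawamata), whence `P.C = 0` if `l > 2 dim Y`.  The restriction of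
  `K_Y + S + B` to `S` is `K_S`, which is the pull-back of `K_V` plus a divisor that is
  exceptional over `V`. -/
  model : ∀ {V : G.Var}, G.Smooth V → 1 ≤ G.dim V →
    ∃ (Y : G.Var) (Δ : G.Bd Y) (s : G.Mark V Y), RationalPair D Y Δ ∧
      G.dim Y = G.dim V + 1 ∧ ∃ T ∈ G.bExc V, G.toB V (G.K V) = G.res s (G.KB Δ) + T

/-- The published theorems that are used. -/
structure RationalPublished (G : Geometry) : Prop where
  /-- Kawamata 1991, Theorem 1: the components of the exceptional locus are uniruled. -/
  kawamata : ∀ {X X' : G.Var} (e : G.Step X X') {Δ : G.Bd X} {T : G.Sub X}, G.Klt X →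
    G.Lc X Δ → G.ray e (G.KB Δ) < 0 → G.Comp e T → G.SUniruled T
  /-- Minimal models of smooth varieties of dimension at most three (Mori 1988). -/
  threefolds : ∀ {V : G.Var}, G.Smooth V → G.dim V ≤ 3 → G.K V ∈ G.Pseff V → G.WeakZariski V
  /-- Lazić and Tsakanikas 2022 (minimal models from NQC weak Zariski decompositions, and for
  log canonical pairs from smooth varieties) and Hashizume and Hu 2020 (a log canonical pair
  with a log minimal model has a terminating program). -/
  reduction : ∀ n : ℕ,
    (∀ V : G.Var, G.Smooth V → G.dim V ≤ n → G.K V ∈ G.Pseff V → G.WeakZariski V) →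
    ∀ (X : G.Var) (Δ : G.Bd X), G.dim X ≤ n → G.Lc X Δ → G.KB Δ ∈ G.Pseff X → G.Q1 X Δ
  /-- Birkar 2012, Hacon and Xu 2013, Hashizume and Hu 2020: a log canonical pair whose log
  canonical class is not pseudo-effective has a program ending with a Mori fibre space. -/
  mori : ∀ (X : G.Var) (Δ : G.Bd X), G.Lc X Δ → G.KB Δ ∉ G.Pseff X → G.Q1 X Δ
  /-- Lazić and Tsakanikas 2022: if smooth varieties of dimension `n` have minimal models, so do
  uniruled log canonical pairs of dimension `n + 1`. -/
  lift : ∀ n : ℕ, (∀ (X : G.Var) (Δ : G.Bd X), G.dim X ≤ n → G.Lc X Δ → G.Q1 X Δ) →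
    ∀ (Y : G.Var) (Δ : G.Bd Y), G.dim Y ≤ n + 1 → G.Uniruled Y → G.Lc Y Δ → G.Q1 Y Δ

variable {G : Geometry}

/-- A non-uniruled variety that is (birationally) a prime divisor of `X` survives along every
program, and the restriction of the log canonical class decomposes. -/
theorem divisor_decomposition (hT : Textbook G) (hM : MarkFacts G) {D : RationalData G}
    (hR : RationalFacts G D) (hP : RationalPublished G) {V : G.Var} (hV : ¬ G.Uniruled V)
    {X X' : G.Var} {Δ : G.Bd X} {Δ' : G.Bd X'} (r : G.Run X Δ X' Δ')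
    (hfin : G.Nef (G.KB Δ') ∨ ∃ f : G.Fib X', G.AntiAmple f (G.KB Δ')) :
    ∀ s : G.Mark V X, G.dim X = G.dim V + 1 → G.Klt X → G.Lc X Δ → G.KB Δ ∈ G.Pseff X →
      ∃ P ∈ G.bNef V, ∃ E ∈ G.bEff V, G.res s (G.KB Δ) = P + E := by
  induction r with
  | refl X Δ =>
    intro s _ _ _ hps
    rcases hfin with hn | ⟨f, hf⟩
    · exact ⟨_, hM.mark_nef s hn, 0, hM.bEff_zero V, by rw [add_zero]⟩
    · exfalso
      obtain ⟨γ, hγ, hγ0, hγL⟩ := hT.fib_curve f hps
      exact absurd (hf γ hγ hγ0) (not_lt.mpr hγL)
  | @cons X X₁ X' Δ Δ' e neg r ih =>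
    intro s hdim hklt hlc hps
    have hloc : ∀ T, G.Comp e T → ¬ G.le (G.im s) T := by
      intro T hTc hle
      have h1 := hR.comp_dim e hTc
      have h2 : G.sdim T ≤ G.sdim (G.im s) := by rw [hM.mark_dim]; omega
      have hST := hT.sub_eq hle h2
      apply hV
      apply hM.mark_uni s
      rw [hST]
      exact hP.kawamata e hklt hlc neg hTc
    obtain ⟨s', -, hres⟩ := hM.mark_step e s hloc
    obtain ⟨P, hPn, E, hE, heq⟩ := ih hfin s' (by rw [hT.step_dim e, hdim])
      (hT.step_klt e hklt hlc neg) (hT.step_lc e hlc neg)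
      (by rw [push_KB hT]; exact hT.step_pseff e hps)
    have hd := hres (G.KB Δ) neg.le
    rw [← push_KB hT] at hd
    refine ⟨P, hPn, _, hM.bEff_add hE hd, ?_⟩
    rw [← add_assoc, ← heq]
    abel

/-- If Q1 holds for the rational point pairs of dimension `dim V + 1`, then the canonical
class of `V` has a weak Zariski decomposition, if it is pseudo-effective. -/
theorem weakZariski_of_rational (hT : Textbook G) (hM : MarkFacts G) {D : RationalData G}
    (hR : RationalFacts G D) (hP : RationalPublished G) {V : G.Var} (hsm : G.Smooth V)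
    (h1 : 1 ≤ G.dim V) (hK : G.K V ∈ G.Pseff V)
    (hQ : ∀ (Y : G.Var) (Δ : G.Bd Y), G.dim Y = G.dim V + 1 → RationalPair D Y Δ → G.Q1 Y Δ) :
    G.WeakZariski V := by
  have hV : ¬ G.Uniruled V := fun h => hM.uni_K hsm h hK
  obtain ⟨Y, Δ, s, hY, hdim, T, hT', hres⟩ := hR.model hsm h1
  obtain ⟨X', Δ', hrun, _, hfin⟩ := hQ Y Δ hdim hY
  obtain ⟨P, hPn, E, hE, heq⟩ := divisor_decomposition hT hM hR hP hV hrun hfin s hdim
    (hR.smooth_klt hY.1) (hR.lc hY) (hR.big_pseff hY.2.2.1)
  have hfinal : G.toB V (G.K V) = P + E + T := by rw [hres, heq]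
  exact ⟨P, hPn, E + T, hM.negativity hPn hE hT' hfinal, by rw [hfinal]; abel⟩

end Pool.Agent.Helper80.MMP
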