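import Pool.Agent.Helper80.MMP.Theory

/-!
# Divisorial log terminal pairs, log canonical centres and programs with scaling
-/

set_option autoImplicit false

namespace Pool.Agent.Helper80.MMP

/-- Further data: divisorial log terminal pairs and their log canonical centres. -/
structure Centres (G : Geometry) where
  /-- `(X, Δ)` is divisorial log terminal. -/
  Dlt : ∀ {X : G.Var}, G.Bd X → Prop
  /-- `Centre Δ W`: `W` is a log canonical centre of `(X, Δ)`. -/
  Centre : ∀ {X : G.Var}, G.Bd X → G.Sub X → Prop
  /-- `Strict e W W'`: `W` is not contained in the exceptional locus of `e`, and `W'` is its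
  strict transform. -/
  Strict : ∀ {X X' : G.Var}, G.Step X X' → G.Sub X → G.Sub X' → Prop
  /-- A resolution of the subvariety is of general type. -/
  GeneralType : ∀ {X : G.Var}, G.Sub X → Prop
  /-- The restriction of a class to a subvariety is pseudo-effective. -/
  PseffOn : ∀ {X : G.Var}, G.Sub X → G.N1 X → Prop

/-- Ample classes (Kleiman's criterion). -/
def Ample (G : Geometry) {X : G.Var} (A : G.N1 X) : Prop := ∀ γ ∈ G.NE X, γ ≠ 0 → 0 < γ A

/-- An infinite sequence of steps of a program with scaling: `(K + Δ_j) + t_j A_j` is nef and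
zero on the ray of the step `e_j : X_j ⇢ X_(j+1)`. -/
structure ScalingSeq (G : Geometry) where
  X : ℕ → G.Var
  Δ : ∀ j, G.Bd (X j)
  A : ∀ j, G.N1 (X j)
  e : ∀ j, G.Step (X j) (X (j + 1))
  t : ℕ → ℝ
  pos : ∀ j, 0 < t j
  nef : ∀ j, G.Nef (G.KB (Δ j) + t j • A j)
  neg : ∀ j, G.ray (e j) (G.KB (Δ j)) < 0
  zero : ∀ j, G.ray (e j) (G.KB (Δ j) + t j • A j) = 0
  nextΔ : ∀ j, Δ (j + 1) = G.pushB (e j) (Δ j)
  nextA : ∀ j, A (j + 1) = G.push (e j) (A j)

namespace ScalingSeq

variable {G : Geometry}

/-- The sequence starts from `(X, Δ)` with the class `A`. -/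
def Starts (S : ScalingSeq G) (X : G.Var) (Δ : G.Bd X) (A : G.N1 X) : Prop :=
  ∃ h : S.X 0 = X, h ▸ S.Δ 0 = Δ ∧ h ▸ S.A 0 = A

/-- `Trace C j W₀ W`: `W` is the strict transform on `X_j` of the subvariety `W₀` of `X_0`. -/
def Trace (S : ScalingSeq G) (C : Centres G) : ∀ j : ℕ, G.Sub (S.X 0) → G.Sub (S.X j) → Prop
  | 0, W₀, W => W₀ = W
  | j + 1, W₀, W' => ∃ W, S.Trace C j W₀ W ∧ C.Strict (S.e j) W W'

end ScalingSeq

/-- The centres near which programs with scaling are known to stop: those of dimension at most
three, those to which the log canonical class restricts to a class that is not pseudo-effective,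
and the minimal log canonical centres of general type. -/
def Good {G : Geometry} (C : Centres G) {X : G.Var} (Δ : G.Bd X) (W : G.Sub X) : Prop :=
  G.sdim W ≤ 3 ∨ ¬ C.PseffOn W (G.KB Δ) ∨
    ((∀ W' : G.Sub X, C.Centre Δ W' → G.le W' W → W' = W) ∧ C.GeneralType W)

/-- Textbook facts on divisorial log terminal pairs. -/
structure DltFacts (G : Geometry) (C : Centres G) : Prop where
  /-- Steps of the program preserve divisorial log terminal pairs (Kollár and Mori, Corollary
  3.44). -/
  step_dlt : ∀ {X X' : G.Var} (e : G.Step X X') {Δ : G.Bd X}, C.Dlt Δ →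
    G.ray e (G.KB Δ) < 0 → C.Dlt (G.pushB e Δ)
  /-- The exceptional locus is not empty. -/
  comp_exists : ∀ {X X' : G.Var} (e : G.Step X X'), ∃ T, G.Comp e T
  /-- Strata of divisorial log terminal pairs: a subvariety contained in components
  `P_1, ..., P_c` of coefficient one lies in a component of their intersection, which has
  codimension `c` and is a log canonical centre (Fujino 2007, Proposition 3.9.2). -/
  strata : ∀ {X : G.Var} {Δ : G.Bd X} {T : G.Sub X} (A : Finset (G.Prm X)), A.Nonempty →
    C.Dlt Δ → (∀ P ∈ A, Δ P = 1 ∧ G.In T P) →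
    ∃ W, C.Centre Δ W ∧ G.le T W ∧ (∀ P ∈ A, G.In W P) ∧ G.sdim W + A.card = G.dim X
  /-- After a step every log canonical centre is the strict transform of one, since
  discrepancies increase over the exceptional locus (Kollár and Mori, Lemma 3.38). -/
  centre_back : ∀ {X X' : G.Var} (e : G.Step X X') {Δ : G.Bd X} {W' : G.Sub X'}, C.Dlt Δ →
    G.ray e (G.KB Δ) < 0 → C.Centre (G.pushB e Δ) W' → ∃ W, C.Centre Δ W ∧ C.Strict e W W'
  strict_dim : ∀ {X X' : G.Var} (e : G.Step X X') {W : G.Sub X} {W' : G.Sub X'},
    C.Strict e W W' → G.sdim W = G.sdim W'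
  strict_in : ∀ {X X' : G.Var} (e : G.Step X X') {W : G.Sub X} {W' : G.Sub X'} {P : G.Prm X}
    {P' : G.Prm X'}, C.Strict e W W' → G.pushP e P = some P' → G.In W' P' → G.In W P

/-- The published theorems that are used. -/
structure DltPublished (G : Geometry) (C : Centres G) : Prop where
  /-- Birkar, Cascini, Hacon and McKernan 2010: flips of divisorial log terminal pairs exist, so
  a program with scaling of an ample class either ends as in Q1, or is infinite. -/
  scaling : ∀ {X : G.Var} {Δ : G.Bd X} {A : G.N1 X}, C.Dlt Δ → Ample G A →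
    G.Q1 X Δ ∨ ∃ S : ScalingSeq G, S.Starts X Δ A
  /-- Special termination.  In an infinite program with scaling of an ample class (its steps
  are flips from some point on), the exceptional locus of the step has eventually no component
  in the strict transform `W` of a good centre `W₀`.  If `dim W₀ ≤ 3`: Shokurov 2003 and Fujino
  2007, Theorem 4.2.1, with the termination of flips of threefolds (Shokurov, Kawamata).  If the
  class of `K + Δ` on `W₀` is not pseudo-effective, `W` exists for finitely many steps only:
  `t_j` tends to `0` (Birkar, Cascini, Hacon and McKernan 2010), and the restriction to `W₀` of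
  `K + Δ + t_j A` is pseudo-effective as long as `W` exists.  If `W₀` is a minimal centre of
  general type, the program induces (Fujino 2007) a program with scaling of a Kawamata log
  terminal pair of dimension `dim W₀` whose log canonical class is big, and it stops by Birkar,
  Cascini, Hacon and McKernan 2010, Corollary 1.4.2. -/
  special : ∀ (S : ScalingSeq G), C.Dlt (S.Δ 0) → Ample G (S.A 0) →
    ∃ j₀ : ℕ, ∀ j, j₀ ≤ j → ∀ (W₀ : G.Sub (S.X 0)) (W T : G.Sub (S.X j)),
      C.Centre (S.Δ 0) W₀ → Good C (S.Δ 0) W₀ → S.Trace C j W₀ W → G.Comp (S.e j) T →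
      ¬ G.le T W

end Pool.Agent.Helper80.MMP
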