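import Pool.Agent.Helper80.MMP.Basic
import Pool.Agent.Helper80.MMP.Scaling

/-!
# Programs with scaling that stay in the intersection of components of the boundary
-/

set_option autoImplicit false

namespace Pool.Agent.Helper80.MMP

variable {G : Geometry} {C : Centres G}

/-- The class of a divisor with real coefficients. -/
noncomputable def clR (G : Geometry) {X : G.Var} (N : G.Prm X →₀ ℝ) : G.N1 X :=
  N.sum fun P u => u • G.cl P

theorem push_clR (hT : Textbook G) {X X' : G.Var} (e : G.Step X X') (N : G.Prm X →₀ ℝ) :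
    clR G (pushF e N) = G.push e (clR G N) := by
  classical
  unfold clR pushF
  rw [Finsupp.sum_sum_index]
  · rw [Finsupp.sum, Finsupp.sum, map_sum]
    refine Finset.sum_congr rfl fun P _ => ?_
    rw [map_smul]
    cases hP : G.pushP e P with
    | none => rw [hT.step_none e hP]; simp
    | some P' =>
      rw [hT.step_some e hP]
      simp
  · intro P; simp
  · intro P a b
    rw [add_smul]

/-- The invariant along a program with scaling. -/
structure Keep (C : Centres G) (S : ScalingSeq G) {c : ℕ} (y : Fin c → ℝ)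
    (N₀ : Fin c → G.Prm (S.X 0) →₀ ℝ) (j : ℕ) (N : Fin c → G.Prm (S.X j) →₀ ℝ) : Prop where
  nonneg : ∀ i P, 0 ≤ N i P
  one : ∀ i, ∀ P ∈ (N i).support, S.Δ j P = 1
  disj : ∀ i i' P, P ∈ (N i).support → P ∈ (N i').support → i = i'
  kb : ∀ i, G.KB (S.Δ j) = y i • S.A j + clR G (N i)
  dlt : C.Dlt (S.Δ j)
  dim : G.dim (S.X j) = G.dim (S.X 0)
  back : ∀ W₀ W, S.Trace C j W₀ W → ∀ i, (∃ P ∈ (N i).support, G.In W P) →
    ∃ P ∈ (N₀ i).support, G.In W₀ P

theorem ray_A {S : ScalingSeq G} (j : ℕ) : 0 < G.ray (S.e j) (S.A j) := by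
  have h1 := S.zero j
  have h2 := S.neg j
  have h3 := S.pos j
  rw [map_add, map_smul, smul_eq_mul] at h1
  by_contra h
  push Not at h
  nlinarith [mul_nonpos_of_nonneg_of_nonpos h3.le h]

/-- The ray of each step is negative on a component of each of the divisors. -/
theorem ray_N {S : ScalingSeq G} {c : ℕ} {y : Fin c → ℝ} {N₀ : Fin c → G.Prm (S.X 0) →₀ ℝ}
    (hy : ∀ i, 0 ≤ y i) {j : ℕ} {N : Fin c → G.Prm (S.X j) →₀ ℝ} (I : Keep C S y N₀ j N)
    (i : Fin c) : ∃ P ∈ (N i).support, G.ray (S.e j) (G.cl P) < 0 := by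
  by_contra hcon
  push Not at hcon
  have h1 := S.neg j
  have h2 := mul_nonneg (hy i) (ray_A j (S := S)).le
  have h3 : 0 ≤ G.ray (S.e j) (clR G (N i)) := by
    unfold clR
    rw [Finsupp.sum, map_sum]
    refine Finset.sum_nonneg fun P hP => ?_
    rw [map_smul, smul_eq_mul]
    exact mul_nonneg (I.nonneg i P) (hcon P hP)
  rw [I.kb i, map_add, map_smul, smul_eq_mul] at h1
  linarith

theorem keep_succ (hT : Textbook G) (hD : DltFacts G C) {S : ScalingSeq G} {c : ℕ}
    {y : Fin c → ℝ} {N₀ : Fin c → G.Prm (S.X 0) →₀ ℝ} {j : ℕ}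
    {N : Fin c → G.Prm (S.X j) →₀ ℝ} (I : Keep C S y N₀ j N) :
    Keep C S y N₀ (j + 1) fun i => pushF (S.e j) (N i) := by
  refine
    { nonneg := ?_
      one := ?_
      disj := ?_
      kb := ?_
      dlt := by rw [S.nextΔ]; exact hD.step_dlt _ I.dlt (S.neg j)
      dim := by rw [hT.step_dim (S.e j), I.dim]
      back := ?_ }
  · intro i P'
    by_cases hP : P' ∈ (pushF (S.e j) (N i)).support
    · obtain ⟨P, -, hPP⟩ := exists_of_mem_support _ _ hP
      rw [pushF_apply hT _ _ hPP]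
      exact I.nonneg i P
    · rw [Finsupp.notMem_support_iff.mp hP]
  · intro i P' hP'
    obtain ⟨P, hP, hPP⟩ := exists_of_mem_support _ _ hP'
    rw [S.nextΔ, pushB_apply hT _ _ hPP]
    exact I.one i P hP
  · intro i i' P' h1 h2
    obtain ⟨P, hP, hPP⟩ := exists_of_mem_support _ _ h1
    obtain ⟨Q, hQ, hQQ⟩ := exists_of_mem_support _ _ h2
    have := hT.step_inj (S.e j) hPP hQQ
    subst this
    exact I.disj i i' P hP hQ
  · intro i
    rw [S.nextΔ, push_KB hT, I.kb i, map_add, map_smul, S.nextA, push_clR hT]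
  · rintro W₀ W' ⟨W, hW, hst⟩ i ⟨P', hP', hin⟩
    obtain ⟨P, hP, hPP⟩ := exists_of_mem_support _ _ hP'
    exact I.back W₀ W hW i ⟨P, hP, hD.strict_in _ hst hPP hin⟩

theorem trace_back (hD : DltFacts G C) {S : ScalingSeq G} (hdlt : ∀ j, C.Dlt (S.Δ j)) :
    ∀ (j : ℕ) (W : G.Sub (S.X j)), C.Centre (S.Δ j) W →
      ∃ W₀, C.Centre (S.Δ 0) W₀ ∧ S.Trace C j W₀ W ∧ G.sdim W₀ = G.sdim W := by
  intro j
  induction j with
  | zero => intro W hW; exact ⟨W, hW, rfl, rfl⟩
  | succ j ih =>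
    intro W' hW'
    rw [S.nextΔ] at hW'
    obtain ⟨W, hW, hst⟩ := hD.centre_back (S.e j) (hdlt j) (S.neg j) hW'
    obtain ⟨W₀, h1, h2, h3⟩ := ih W hW
    exact ⟨W₀, h1, ⟨W, h2, hst⟩, by rw [h3, hD.strict_dim _ hst]⟩

/-- There is no infinite program with scaling of an ample class. -/
theorem no_infinite (hT : Textbook G) (hD : DltFacts G C) (hP : DltPublished G C)
    (S : ScalingSeq G) {c : ℕ} (hc : 0 < c) (y : Fin c → ℝ) (N : Fin c → G.Prm (S.X 0) →₀ ℝ)
    (hnn : ∀ i P, 0 ≤ N i P) (hone : ∀ i, ∀ P ∈ (N i).support, S.Δ 0 P = 1)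
    (hdisj : ∀ i i' P, P ∈ (N i).support → P ∈ (N i').support → i = i')
    (hA : Ample G (S.A 0)) (hy : ∀ i, 0 ≤ y i)
    (hkb : ∀ i, G.KB (S.Δ 0) = y i • S.A 0 + clR G (N i)) (hdlt : C.Dlt (S.Δ 0))
    (hW : ∀ W : G.Sub (S.X 0), C.Centre (S.Δ 0) W →
      (∀ i, ∃ P ∈ (N i).support, G.In W P) → G.sdim W + c = G.dim (S.X 0) →
      Good C (S.Δ 0) W) : False := by
  classical
  have keep : ∀ j, ∃ N' : Fin c → G.Prm (S.X j) →₀ ℝ, Keep C S y N j N' := by
    intro j
    induction j with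
    | zero =>
      exact ⟨N,
        { nonneg := hnn
          one := hone
          disj := hdisj
          kb := hkb
          dlt := hdlt
          dim := rfl
          back := by rintro W₀ W (rfl : W₀ = W) i h; exact h }⟩
    | succ j ih =>
      obtain ⟨N', I⟩ := ih
      exact ⟨_, keep_succ hT hD I⟩
  have hdlt' : ∀ j, C.Dlt (S.Δ j) := by
    intro j
    obtain ⟨N', I⟩ := keep j
    exact I.dlt
  obtain ⟨j, hj⟩ := hP.special S hdlt hA
  obtain ⟨T, hTc⟩ := hD.comp_exists (S.e j)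
  obtain ⟨N', I⟩ := keep j
  choose H hHs hHn using fun i => ray_N hy I i
  have hinj : Function.Injective H := by
    intro i i' h
    exact I.disj i i' (H i) (hHs i) (h ▸ hHs i')
  obtain ⟨W, hWc, hle, hWin, hdim⟩ := hD.strata (T := T) (Finset.univ.image H)
    ⟨H ⟨0, hc⟩, Finset.mem_image_of_mem _ (Finset.mem_univ _)⟩ I.dlt (by
      intro P hPm
      obtain ⟨i, _, rfl⟩ := Finset.mem_image.mp hPm
      exact ⟨I.one i _ (hHs i), hT.comp_in _ hTc (hHn i)⟩)
  rw [Finset.card_image_of_injective _ hinj, Finset.card_univ, Fintype.card_fin, I.dim] at hdim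
  obtain ⟨W₀, h1, h2, h3⟩ := trace_back hD hdlt' j W hWc
  have hin : ∀ i, ∃ P ∈ (N i).support, G.In W₀ P := fun i =>
    I.back W₀ W h2 i ⟨H i, hHs i, hWin _ (Finset.mem_image_of_mem _ (Finset.mem_univ i))⟩
  exact hj j le_rfl W₀ W T h1 (hW W₀ h1 hin (by rw [h3]; exact hdim)) h2 hTc hle

/-- Q1 for divisorial log terminal pairs `(X, Δ)` with `K + Δ = y_i A + N_i`, where `A` is ample,
`y_i ≥ 0`, and `N_1, ..., N_c` are effective divisors without common components, all of whose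
components have coefficient one in `Δ`, if the log canonical centres of codimension `c` that lie
in components of all the `N_i` are good. -/
theorem q1_of_components (hT : Textbook G) (hD : DltFacts G C) (hP : DltPublished G C)
    {X : G.Var} {Δ : G.Bd X} {A : G.N1 X} {c : ℕ} (hc : 0 < c) (y : Fin c → ℝ)
    (N : Fin c → G.Prm X →₀ ℝ) (hnn : ∀ i P, 0 ≤ N i P)
    (hone : ∀ i, ∀ P ∈ (N i).support, Δ P = 1)
    (hdisj : ∀ i i' P, P ∈ (N i).support → P ∈ (N i').support → i = i')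
    (hA : Ample G A) (hy : ∀ i, 0 ≤ y i)
    (hkb : ∀ i, G.KB Δ = y i • A + clR G (N i)) (hdlt : C.Dlt Δ)
    (hW : ∀ W : G.Sub X, C.Centre Δ W → (∀ i, ∃ P ∈ (N i).support, G.In W P) →
      G.sdim W + c = G.dim X → Good C Δ W) : G.Q1 X Δ := by
  rcases hP.scaling hdlt hA with h | ⟨S, h0, hΔ, hA0⟩
  · exact h
  · exfalso
    subst h0
    simp only at hΔ hA0
    subst hΔ hA0
    exact no_infinite hT hD hP S hc y N hnn hone hdisj hA hy hkb hdlt hW

end Pool.Agent.Helper80.MMP
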