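import Mathlib

/-!
# The language of the log minimal model program, and the facts that are used

Everything is over the complex numbers.  `Geometry` holds only data; `Textbook`, `MarkFacts`,
`ProjectiveFacts` and `Published` are the true statements about complex projective varieties that
the proofs use, each with its reference.

All varieties (`Var`) are normal, connected, `ℚ`-factorial and projective, as in the problem.
-/

set_option autoImplicit false

namespace Pool.Agent.Helper80.MMP

/-- The data. -/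
structure Geometry where
  /-- Normal, connected, `ℚ`-factorial projective complex varieties. -/
  Var : Type
  /-- Dimension. -/
  dim : Var → ℕ
  /-- `N^1(X)`: real divisors modulo numerical equivalence. -/
  N1 : Var → Type
  [grp : ∀ X, AddCommGroup (N1 X)]
  [mdl : ∀ X, Module ℝ (N1 X)]
  /-- Prime divisors of `X`. -/
  Prm : Var → Type
  /-- The class of a prime divisor. -/
  cl : ∀ {X : Var}, Prm X → N1 X
  /-- The canonical class. -/
  K : ∀ X : Var, N1 X
  /-- The closed cone of curves, as a set of linear forms on `N^1(X)` (`N_1(X)` is its dual). -/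
  NE : ∀ X : Var, Set (N1 X →ₗ[ℝ] ℝ)
  /-- The cone of pseudo-effective classes. -/
  Pseff : ∀ X : Var, Set (N1 X)
  /-- `(X, Δ)` is log canonical, for an effective `ℚ`-divisor `Δ`. -/
  Lc : ∀ X : Var, (Prm X →₀ ℚ≥0) → Prop
  /-- `(X, 0)` is Kawamata log terminal (`X` is `ℚ`-factorial, so `K_X` is `ℚ`-Cartier). -/
  Klt : Var → Prop
  /-- `X` is smooth. -/
  Smooth : Var → Prop
  /-- `X` is uniruled. -/
  Uniruled : Var → Prop
  /-- `Step X X'`: divisorial contractions and flips `X ⇢ X'` of extremal rays that are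
  `(K + D)`-negative for some log canonical pair `(X, D)`.  As `X` is `ℚ`-factorial and divisors
  that are zero on the ray descend to its contraction, the step depends only on the ray; it is a
  step of the `(K + Δ)`-program exactly when `K + Δ` is negative on the ray. -/
  Step : Var → Var → Type
  /-- The extremal ray of a step, as a generator. -/
  ray : ∀ {X X' : Var}, Step X X' → (N1 X →ₗ[ℝ] ℝ)
  /-- Push-forward of classes along a step. -/
  push : ∀ {X X' : Var}, Step X X' → (N1 X →ₗ[ℝ] N1 X')
  /-- Push-forward of prime divisors: `none` if the prime divisor is contracted. -/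
  pushP : ∀ {X X' : Var}, Step X X' → Prm X → Option (Prm X')
  /-- The step is a flip (otherwise it is a divisorial contraction). -/
  Flip : ∀ {X X' : Var}, Step X X' → Prop
  /-- Fibrations `f : X → Y` onto normal projective varieties with `dim Y < dim X`. -/
  Fib : Var → Type
  /-- The relative closed cone of curves `NE(X/Y)` of a fibration. -/
  NEf : ∀ {X : Var}, Fib X → Set (N1 X →ₗ[ℝ] ℝ)
  /-- Irreducible closed subvarieties of `X`. -/
  Sub : Var → Type
  /-- Inclusion of subvarieties. -/
  le : ∀ {X : Var}, Sub X → Sub X → Prop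
  /-- Dimension of a subvariety. -/
  sdim : ∀ {X : Var}, Sub X → ℕ
  /-- `In S P`: the subvariety `S` is contained in the prime divisor `P`. -/
  In : ∀ {X : Var}, Sub X → Prm X → Prop
  /-- A subvariety is uniruled. -/
  SUniruled : ∀ {X : Var}, Sub X → Prop
  /-- `Comp e T`: `T` is an irreducible component of the exceptional locus of the contraction
  of the ray of the step `e`. -/
  Comp : ∀ {X X' : Var}, Step X X' → Sub X → Prop
  /-- `Mark V X`: birational maps from `V` onto closed subvarieties of `X`. -/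
  Mark : Var → Var → Type
  /-- The image of a mark. -/
  im : ∀ {V X : Var}, Mark V X → Sub X
  /-- `B V`: numerical classes of `ℝ`-Cartier `b`-divisors over `V`, the direct limit of the
  spaces `N^1` of the smooth projective varieties with a birational morphism to `V`. -/
  B : Var → Type
  [grpB : ∀ V, AddCommGroup (B V)]
  [mdlB : ∀ V, Module ℝ (B V)]
  /-- Pull-back of classes of `V` to high models. -/
  toB : ∀ V : Var, N1 V →ₗ[ℝ] B V
  /-- Classes which, on some high model, are sums of non-negative multiples of nef Cartier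
  classes (NQC nef classes). -/
  bNef : ∀ V : Var, Set (B V)
  /-- Classes of effective `ℝ`-divisors on high models of `V`. -/
  bEff : ∀ V : Var, Set (B V)
  /-- Classes of `ℝ`-divisors on high models of `V` all of whose components are exceptional
  over `V`. -/
  bExc : ∀ V : Var, Set (B V)
  /-- Restriction of a class of `X` to the image of a mark, pulled back to high models of `V`. -/
  res : ∀ {V X : Var}, Mark V X → (N1 X →ₗ[ℝ] B V)
  /-- Divisorial valuations of the function field of `X` with centre of codimension at least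
  `2` on `X`. -/
  Val : Var → Type
  /-- The multiplicity of a prime divisor along a valuation. -/
  ordV : ∀ {X : Var}, Val X → Prm X → ℚ≥0
  /-- The discrepancy `a(v, X, 0)`. -/
  discV : ∀ {X : Var}, Val X → ℚ
  /-- `Ext X Y`: projective birational morphisms `f : Y → X` with exactly one exceptional prime
  divisor. -/
  Ext : Var → Var → Type
  /-- The valuation of the exceptional prime divisor. -/
  val : ∀ {X Y : Var}, Ext X Y → Val X
  /-- The exceptional prime divisor. -/
  exc : ∀ {X Y : Var}, Ext X Y → Prm Y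
  /-- Pull-back of classes. -/
  pull : ∀ {X Y : Var}, Ext X Y → (N1 X →ₗ[ℝ] N1 Y)
  /-- Strict transform of prime divisors. -/
  strict : ∀ {X Y : Var}, Ext X Y → Prm X → Prm Y
  /-- Projective space of dimension `N`. -/
  PP : ℕ → Var
  /-- The class of a hyperplane. -/
  hyp : ∀ N : ℕ, N1 (PP N)

attribute [instance] Geometry.grp Geometry.mdl Geometry.grpB Geometry.mdlB

namespace Geometry

variable (G : Geometry)

/-- Effective `ℚ`-divisors. -/
abbrev Bd (X : G.Var) : Type := G.Prm X →₀ ℚ≥0

/-- The class of an effective `ℚ`-divisor. -/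
noncomputable def clB {X : G.Var} (Δ : G.Bd X) : G.N1 X :=
  Δ.sum fun P q => (((q : ℚ)) : ℝ) • G.cl P

/-- The class `K_X + Δ`. -/
noncomputable def KB {X : G.Var} (Δ : G.Bd X) : G.N1 X := G.K X + G.clB Δ

/-- A class is nef if it is non-negative on the closed cone of curves. -/
def Nef {X : G.Var} (c : G.N1 X) : Prop := ∀ γ ∈ G.NE X, 0 ≤ γ c

/-- `γ` spans an extremal ray of the closed cone of curves. -/
def Extremal {X : G.Var} (γ : G.N1 X →ₗ[ℝ] ℝ) : Prop :=
  γ ∈ G.NE X ∧ γ ≠ 0 ∧
    ∀ α ∈ G.NE X, ∀ β ∈ G.NE X, α + β = γ → ∃ t : ℝ, 0 ≤ t ∧ α = t • γ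

/-- Push-forward of effective `ℚ`-divisors along a step. -/
noncomputable def pushB {X X' : G.Var} (e : G.Step X X') (Δ : G.Bd X) : G.Bd X' :=
  Δ.sum fun P q => (G.pushP e P).elim 0 fun P' => Finsupp.single P' q

/-- `Run X Δ X' Δ'`: there is a finite sequence of `(K + Δ)`-negative divisorial contractions
and flips from `X` to `X'`, and `Δ'` is the push-forward of `Δ`. -/
inductive Run : (X : G.Var) → G.Bd X → (X' : G.Var) → G.Bd X' → Prop
  | refl (X : G.Var) (Δ : G.Bd X) : Run X Δ X Δ
  | cons {X X₁ X' : G.Var} {Δ : G.Bd X} {Δ' : G.Bd X'} (e : G.Step X X₁)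
      (neg : G.ray e (G.KB Δ) < 0) (r : Run X₁ (G.pushB e Δ) X' Δ') : Run X Δ X' Δ'

/-- `-c` is ample over the base of the fibration `f` (relative Kleiman criterion). -/
def AntiAmple {X : G.Var} (f : G.Fib X) (c : G.N1 X) : Prop :=
  ∀ γ ∈ G.NEf f, γ ≠ 0 → γ c < 0

/-- A class is big if it is the sum of an ample class (positive on `NE(X)` minus `0`) and a
pseudo-effective class. -/
def Big {X : G.Var} (c : G.N1 X) : Prop :=
  ∃ A : G.N1 X, (∀ γ ∈ G.NE X, γ ≠ 0 → 0 < γ A) ∧ c - A ∈ G.Pseff X

/-- The conclusion of Q1 for the pair `(X, Δ)`: some finite sequence of divisorial contractions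
and flips leads to a log canonical pair `(X', Δ')` for which `K + Δ'` is nef, or which has a
fibration onto a lower-dimensional variety over which `-(K + Δ')` is ample. -/
def Q1 (X : G.Var) (Δ : G.Bd X) : Prop :=
  ∃ (X' : G.Var) (Δ' : G.Bd X'), G.Run X Δ X' Δ' ∧ G.Lc X' Δ' ∧
    (G.Nef (G.KB Δ') ∨ ∃ f : G.Fib X', G.AntiAmple f (G.KB Δ'))

/-- The discrepancy of a valuation with respect to the pair `(X, Δ)`. -/
noncomputable def disc {X : G.Var} (v : G.Val X) (Δ : G.Bd X) : ℚ :=
  G.discV v - Δ.sum fun P q => (q : ℚ) * (G.ordV v P : ℚ)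

/-- `K_V` has an NQC weak Zariski decomposition: on some smooth projective variety with a
birational morphism `r` to `V`, `r^* K_V` is numerically the sum of a nef class (a non-negative
combination of nef Cartier classes) and of an effective `ℝ`-divisor. -/
def WeakZariski (V : G.Var) : Prop :=
  ∃ P ∈ G.bNef V, ∃ E ∈ G.bEff V, G.toB V (G.K V) = P + E

/-- The sum of the prime divisors of a finite family. -/
noncomputable def total {X : G.Var} {c : ℕ} (H : Fin c → G.Prm X) : G.Bd X :=
  ∑ i, Finsupp.single (H i) (1 : ℚ≥0)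

/-- `PrimePair k d Y Δ`: the Kawamata log terminal variety `Y` has a projective birational
morphism `f : Y → ℙ^(2k+1)` with exactly one exceptional prime divisor `F`, of discrepancy `k`
over `ℙ^(2k+1)`, and `Δ` is ONE prime divisor of coefficient one, the strict transform of an
irreducible hypersurface of degree `(k+1)d` along which `F` has multiplicity `k+1`, with `(Y, Δ)`
log canonical and `K + Δ` big.  So `Y` is rational of Picard number two. -/
def PrimePair (k d : ℕ) (Y : G.Var) (Δ : G.Bd Y) : Prop :=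
  G.Klt Y ∧ G.Lc Y Δ ∧ G.Big (G.KB Δ) ∧
    ∃ (f : G.Ext (G.PP (2 * k + 1)) Y) (S : G.Prm (G.PP (2 * k + 1))),
      G.cl S = (((k : ℝ) + 1) * d) • G.hyp (2 * k + 1) ∧
      G.ordV (G.val f) S = k + 1 ∧ G.discV (G.val f) = k ∧
      Δ = Finsupp.single (G.strict f S) 1

end Geometry

/-- Elementary facts of the theory of divisors and of the minimal model program. -/
structure Textbook (G : Geometry) : Prop where
  /-- The closed cone of curves is a convex cone. -/
  ne_add : ∀ {X : G.Var} {α β : G.N1 X →ₗ[ℝ] ℝ}, α ∈ G.NE X → β ∈ G.NE X → α + β ∈ G.NE X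
  ne_smul : ∀ {X : G.Var} {α : G.N1 X →ₗ[ℝ] ℝ} {t : ℝ}, 0 ≤ t → α ∈ G.NE X → t • α ∈ G.NE X
  /-- Kleiman: an ample class is positive on the closed cone of curves minus `0`. -/
  ample : ∀ X : G.Var, ∃ A : G.N1 X, ∀ γ ∈ G.NE X, γ ≠ 0 → 0 < γ A
  /-- Pseudo-effective classes form a convex cone containing the prime divisors. -/
  pseff_add : ∀ {X : G.Var} {a b : G.N1 X}, a ∈ G.Pseff X → b ∈ G.Pseff X → a + b ∈ G.Pseff X
  pseff_smul : ∀ {X : G.Var} {a : G.N1 X} {t : ℝ}, 0 ≤ t → a ∈ G.Pseff X → t • a ∈ G.Pseff X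
  pseff_prime : ∀ {X : G.Var} (P : G.Prm X), G.cl P ∈ G.Pseff X
  /-- A pseudo-effective class whose opposite is nef is zero (intersect with powers of an ample
  class). -/
  pseff_antinef : ∀ {X : G.Var} {a : G.N1 X}, a ∈ G.Pseff X → G.Nef (-a) → a = 0
  /-- The curves of the fibres of a fibration with positive-dimensional fibres cover `X`; such a
  covering family is non-negative on pseudo-effective classes. -/
  fib_curve : ∀ {X : G.Var} (f : G.Fib X) {a : G.N1 X}, a ∈ G.Pseff X →
    ∃ γ ∈ G.NEf f, γ ≠ 0 ∧ 0 ≤ γ a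
  /-- The ray of a step is extremal. -/
  step_ray : ∀ {X X' : G.Var} (e : G.Step X X'), G.Extremal (G.ray e)
  /-- Push-forward of the canonical class and of prime divisors. -/
  step_K : ∀ {X X' : G.Var} (e : G.Step X X'), G.push e (G.K X) = G.K X'
  step_some : ∀ {X X' : G.Var} (e : G.Step X X') {P : G.Prm X} {P' : G.Prm X'},
    G.pushP e P = some P' → G.push e (G.cl P) = G.cl P'
  step_none : ∀ {X X' : G.Var} (e : G.Step X X') {P : G.Prm X},
    G.pushP e P = none → G.push e (G.cl P) = 0
  step_inj : ∀ {X X' : G.Var} (e : G.Step X X') {P Q : G.Prm X} {P' : G.Prm X'},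
    G.pushP e P = some P' → G.pushP e Q = some P' → P = Q
  step_pseff : ∀ {X X' : G.Var} (e : G.Step X X') {a : G.N1 X},
    a ∈ G.Pseff X → G.push e a ∈ G.Pseff X'
  step_dim : ∀ {X X' : G.Var}, G.Step X X' → G.dim X' = G.dim X
  /-- Steps of the program preserve log canonical pairs (Kollár and Mori, Lemma 3.38 and
  Corollary 3.44) ... -/
  step_lc : ∀ {X X' : G.Var} (e : G.Step X X') {Δ : G.Bd X}, G.Lc X Δ →
    G.ray e (G.KB Δ) < 0 → G.Lc X' (G.pushB e Δ)
  /-- ... and the property that `(X, 0)` is Kawamata log terminal (perturb the boundary). -/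
  step_klt : ∀ {X X' : G.Var} (e : G.Step X X') {Δ : G.Bd X}, G.Klt X → G.Lc X Δ →
    G.ray e (G.KB Δ) < 0 → G.Klt X'
  /-- A divisorial contraction contracts one prime divisor `P`, and every other prime divisor is
  non-negative on its ray, since the curves of the ray cover `P`. -/
  div_prime : ∀ {X X' : G.Var} (e : G.Step X X'), ¬ G.Flip e →
    ∃ P : G.Prm X, G.pushP e P = none ∧ ∀ Q : G.Prm X, Q ≠ P → 0 ≤ G.ray e (G.cl Q)
  /-- A flip is an isomorphism in codimension one. -/
  flip_prime : ∀ {X X' : G.Var} (e : G.Step X X'), G.Flip e →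
    ∀ P : G.Prm X, ∃ P' : G.Prm X', G.pushP e P = some P'
  flip_bij : ∀ {X X' : G.Var} (e : G.Step X X'), G.Flip e → Function.Bijective (G.push e)
  /-- The flipped curves span an extremal ray, which is the opposite of the flipping ray under
  the identification of the spaces `N^1`. -/
  flip_ray : ∀ {X X' : G.Var} (e : G.Step X X'), G.Flip e →
    ∃ γ : G.N1 X' →ₗ[ℝ] ℝ, G.Extremal γ ∧ ∀ c, γ (G.push e c) = - G.ray e c
  /-- Dimension of subvarieties. -/
  sub_eq : ∀ {X : G.Var} {S T : G.Sub X}, G.le S T → G.sdim T ≤ G.sdim S → S = T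
  /-- A prime divisor that is negative on the ray contains the exceptional locus. -/
  comp_in : ∀ {X X' : G.Var} (e : G.Step X X') {T : G.Sub X} {P : G.Prm X},
    G.Comp e T → G.ray e (G.cl P) < 0 → G.In T P

/-- Restriction of classes to subvarieties, and the negativity lemma. -/
structure MarkFacts (G : Geometry) : Prop where
  /-- Marks: dimension, and birational invariance of uniruledness. -/
  mark_dim : ∀ {V X : G.Var} (s : G.Mark V X), G.sdim (G.im s) = G.dim V
  mark_uni : ∀ {V X : G.Var} (s : G.Mark V X), G.SUniruled (G.im s) → G.Uniruled V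
  /-- The canonical class of a smooth uniruled variety is not pseudo-effective. -/
  uni_K : ∀ {V : G.Var}, G.Smooth V → G.Uniruled V → G.K V ∉ G.Pseff V
  /-- Steps and marks.  If the image `S` of the mark is not contained in the exceptional locus,
  it has a strict transform `S'`, and by the negativity lemma the class of `D|S - D'|S'` is
  effective on a high model, for every divisor `D` that is not positive on the ray (Kollár and
  Mori, Lemmas 3.38 and 3.39). -/
  mark_step : ∀ {V X X' : G.Var} (e : G.Step X X') (s : G.Mark V X),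
    (∀ T, G.Comp e T → ¬ G.le (G.im s) T) →
    ∃ s' : G.Mark V X',
      (∀ (P : G.Prm X) (P' : G.Prm X'), G.pushP e P = some P' → G.In (G.im s) P →
        G.In (G.im s') P') ∧
      ∀ c : G.N1 X, G.ray e c ≤ 0 → G.res s c - G.res s' (G.push e c) ∈ G.bEff V
  /-- The restriction of a nef `ℚ`-Cartier class is a nef `ℚ`-Cartier class. -/
  mark_nef : ∀ {V X : G.Var} (s : G.Mark V X) {Δ : G.Bd X}, G.Nef (G.KB Δ) →
    G.res s (G.KB Δ) ∈ G.bNef V
  /-- Effective classes form a convex cone. -/
  bEff_zero : ∀ V : G.Var, (0 : G.B V) ∈ G.bEff V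
  bEff_add : ∀ {V : G.Var} {a b : G.B V}, a ∈ G.bEff V → b ∈ G.bEff V → a + b ∈ G.bEff V
  bExc_neg : ∀ {V : G.Var} {a : G.B V}, a ∈ G.bExc V → -a ∈ G.bExc V
  /-- The negativity lemma (Kollár and Mori, Lemma 3.39): on a high model `r : W → V`, let `E`
  be effective and `T` exceptional over `V`.  If `r^* k - E - T` is nef then `E + T` is
  effective, as its push-forward to `V` is. -/
  negativity : ∀ {V : G.Var} {k : G.N1 V} {P E T : G.B V}, P ∈ G.bNef V → E ∈ G.bEff V →
    T ∈ G.bExc V → G.toB V k = P + E + T → E + T ∈ G.bEff V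

/-- Extractions of one prime divisor. -/
structure ExtractionFacts (G : Geometry) : Prop where
  /-- Extractions of one prime divisor `F` of valuation `v`: `N^1(Y) = f^* N^1(X) + ℝ F`. -/
  ext_dim : ∀ {X Y : G.Var}, G.Ext X Y → G.dim Y = G.dim X
  ext_span : ∀ {X Y : G.Var} (f : G.Ext X Y) (c : G.N1 Y),
    ∃ (x : G.N1 X) (t : ℝ), c = G.pull f x + t • G.cl (G.exc f)
  ext_pull : ∀ {X Y : G.Var} (f : G.Ext X Y), Function.Injective (G.pull f)
  ext_cl : ∀ {X Y : G.Var} (f : G.Ext X Y) (P : G.Prm X), G.cl (G.strict f P) =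
    G.pull f (G.cl P) - ((G.ordV (G.val f) P : ℚ) : ℝ) • G.cl (G.exc f)
  ext_K : ∀ {X Y : G.Var} (f : G.Ext X Y), G.K Y =
    G.pull f (G.K X) + ((G.discV (G.val f) : ℚ) : ℝ) • G.cl (G.exc f)
  ext_inj : ∀ {X Y : G.Var} (f : G.Ext X Y), Function.Injective (G.strict f)
  ext_pseff : ∀ {X Y : G.Var} (f : G.Ext X Y) {a : G.N1 X}, a ∈ G.Pseff X →
    G.pull f a ∈ G.Pseff Y
  /-- The pull-back of an ample class is big. -/
  ext_big : ∀ {X Y : G.Var} (f : G.Ext X Y) {a : G.N1 X}, (∀ γ ∈ G.NE X, γ ≠ 0 → 0 < γ a) →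
    G.Big (G.pull f a)
  /-- If `(X, Δ)` is log canonical and `F` has discrepancy `-1`, then `(Y, f^{-1}_* Δ + F)` is
  the crepant pull-back of `(X, Δ)`, so it is log canonical; drop `F`. -/
  ext_lc : ∀ {X Y : G.Var} (f : G.Ext X Y) {Δ : G.Bd X}, G.Lc X Δ →
    G.disc (G.val f) Δ = -1 → G.Lc Y (Δ.mapDomain (G.strict f))
  /-- The relative Picard number of `Y` over `X` is one, and `-F` is ample over `X`. -/
  ext_ray : ∀ {X Y : G.Var} (f : G.Ext X Y), ∃ γ : G.N1 Y →ₗ[ℝ] ℝ, G.Extremal γ ∧
    (∀ x, γ (G.pull f x) = 0) ∧ γ (G.cl (G.exc f)) < 0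

/-- `Linked V k d`: linkage of the smooth variety `V` of dimension `k` in `ℙ^(2k+1)` by `k + 1`
hypersurfaces of degree `d`, see `ProjectiveFacts.linkage`. -/
def Linked (G : Geometry) (V : G.Var) (k d : ℕ) : Prop :=
  ∃ (H : Fin (k + 1) → G.Prm (G.PP (2 * k + 1))) (S : G.Prm (G.PP (2 * k + 1)))
    (v : G.Val (G.PP (2 * k + 1))) (hV Γ : G.N1 V),
    (Function.Injective H ∧ (∀ i, G.cl (H i) = (d : ℝ) • G.hyp (2 * k + 1)) ∧
      (∀ i, G.ordV v (H i) = 1) ∧ G.Lc (G.PP (2 * k + 1)) (G.total H)) ∧
    (G.cl S = (((k : ℝ) + 1) * d) • G.hyp (2 * k + 1) ∧ G.ordV v S = k + 1 ∧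
      G.Lc (G.PP (2 * k + 1)) (Finsupp.single S 1)) ∧
    G.discV v = k ∧ G.K V = (((k : ℝ) + 1) * d - (2 * k + 2)) • hV - Γ ∧
    ∀ {Y : G.Var} (f : G.Ext (G.PP (2 * k + 1)) Y), G.val f = v →
      ∃ s : G.Mark V Y, (∀ i, G.In (G.im s) (G.strict f (H i))) ∧
        G.res s (G.pull f (G.hyp (2 * k + 1))) = G.toB V hV ∧
        ∃ T ∈ G.bExc V, G.toB V Γ = G.res s (G.cl (G.exc f)) + T

/-- Projective space, and linkage. -/
structure ProjectiveFacts (G : Geometry) : Prop where
  pp_dim : ∀ N : ℕ, G.dim (G.PP N) = N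
  pp_klt : ∀ N : ℕ, G.Klt (G.PP N)
  pp_K : ∀ N : ℕ, G.K (G.PP N) = (-((N : ℝ) + 1)) • G.hyp N
  pp_span : ∀ (N : ℕ) (c : G.N1 (G.PP N)), ∃ t : ℝ, c = t • G.hyp N
  pp_pseff : ∀ N : ℕ, G.hyp N ∈ G.Pseff (G.PP N)
  pp_hyp : ∀ N : ℕ, 1 ≤ N → G.hyp N ≠ 0
  pp_ample : ∀ N : ℕ, ∀ γ ∈ G.NE (G.PP N), γ ≠ 0 → 0 < γ (G.hyp N)
  /-- Linkage (Peskine and Szpiro 1974) and the theorem of Bertini.  A smooth projective variety
  `V` of dimension `k ≥ 2` is embedded in `ℙ^(2k+1)`.  For `d` large, `k + 1` general
  hypersurfaces `G_i` of degree `d` containing `V` meet in `V ∪ V'`, where `V'` is irreducible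
  of codimension `k + 1`; let `v` be the valuation of the divisor over `V'`.  After blowing up
  `V`, and then the strict transform of `V'`, everything is smooth with normal crossings, and
  the strict transforms of the `G_i` span a linear system without base points, the pull-back of
  the hyperplanes of `ℙ^k`; let `S` be the zero set of `g(G_0, ..., G_k)`, where `g` is a general
  form of degree `k + 1`: it is the image of the pull-back of a general hypersurface of `ℙ^k`.
  The pairs `(ℙ^(2k+1), Σ G_i)` and `(ℙ^(2k+1), S)` are log canonical, and `v` has discrepancy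
  `k - (k + 1) = -1` for both.  Let `Γ` be the divisor `V ∩ V'` of `V`; adjunction gives
  `K_V = ((k+1)d - (2k+2)) H|V - Γ`.  In codimension one on `V` everything is normal crossing: if
  `f : Y → ℙ^(2k+1)` extracts `v`, then there `f` is the blowing-up of the smooth variety `V'`,
  so that the restriction of its exceptional divisor to the strict transform of `V`, which lies
  on the strict transforms of the `G_i`, is `Γ`, up to divisors exceptional over `V`. -/
  linkage : ∀ {V : G.Var}, G.Smooth V → ∀ {k : ℕ}, G.dim V = k → 2 ≤ k →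
    ∃ d₀ : ℕ, ∀ d : ℕ, d₀ ≤ d → Linked G V k d

/-- The published theorems that are used. -/
structure Published (G : Geometry) : Prop where
  /-- Birkar, Cascini, Hacon and McKernan 2010, Corollary 1.4.3 (applied to a Kawamata log
  terminal pair `(X, (1 - η) Δ)`, `η` small): a divisorial valuation of discrepancy `-1` over a
  log canonical pair `(X, Δ)` with `X` Kawamata log terminal can be extracted. -/
  extract : ∀ {X : G.Var} {Δ : G.Bd X} (v : G.Val X), G.Klt X → G.Lc X Δ → G.disc v Δ = -1 →
    ∃ (Y : G.Var) (f : G.Ext X Y), G.val f = v ∧ G.Klt Y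
  /-- Kawamata 1991, Theorem 1: the components of the exceptional locus are uniruled. -/
  kawamata : ∀ {X X' : G.Var} (e : G.Step X X') {Δ : G.Bd X} {T : G.Sub X}, G.Klt X →
    G.Lc X Δ → G.ray e (G.KB Δ) < 0 → G.Comp e T → G.SUniruled T
  /-- Kollár et al., Flips and abundance, Theorem 18.22: if `(X, Δ)` is log canonical, the number
  of components of coefficient `1` of `Δ` that contain `T` is at most the codimension of
  `T`. -/
  kollar : ∀ {X : G.Var} {Δ : G.Bd X} {T : G.Sub X} (A : Finset (G.Prm X)), G.Lc X Δ →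
    (∀ P ∈ A, Δ P = 1 ∧ G.In T P) → A.card + G.sdim T ≤ G.dim X
  /-- Minimal models of smooth varieties of dimension at most three (Mori 1988). -/
  threefolds : ∀ {V : G.Var}, G.Smooth V → G.dim V ≤ 3 → G.K V ∈ G.Pseff V → G.WeakZariski V
  /-- Lazić and Tsakanikas 2022 (minimal models from NQC weak Zariski decompositions, and for
  log canonical pairs from smooth varieties) and Hashizume and Hu 2020 (a log canonical pair
  with a log minimal model has a terminating program). -/
  reduction : ∀ n : ℕ,
    (∀ V : G.Var, G.Smooth V → G.dim V ≤ n → G.K V ∈ G.Pseff V → G.WeakZariski V) →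
    ∀ (X : G.Var) (Δ : G.Bd X), G.dim X ≤ n → G.Lc X Δ → G.KB Δ ∈ G.Pseff X → G.Q1 X Δ
  /-- Birkar 2012, Hacon and Xu 2013, Hashizume and Hu 2020: a log canonical pair whose log
  canonical class is not pseudo-effective has a program ending with a Mori fibre space. -/
  mori : ∀ (X : G.Var) (Δ : G.Bd X), G.Lc X Δ → G.KB Δ ∉ G.Pseff X → G.Q1 X Δ

end Pool.Agent.Helper80.MMP
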