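import Pool.Agent.Helper80.MMP.Basic

/-!
# The proof of the reduction to one-divisor extractions of projective space
-/

set_option autoImplicit false

namespace Pool.Agent.Helper80.MMP

variable {G : Geometry}

/-! ### The invariant of the program -/

/-- The invariant along a program of a pair `(X, Δ)`: `H` is the family of the strict transforms
of the linking hypersurfaces, all of class `h`, and `K + Δ = K + Σ H_i = h + ε a`. -/
structure Inv (V : G.Var) (k : ℕ) (ε : ℝ) {X : G.Var} (Δ : G.Bd X) (H : Fin (k + 1) → G.Prm X)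
    (s : G.Mark V X) (a h : G.N1 X) : Prop where
  inj : Function.Injective H
  lc : G.Lc X Δ
  lcH : G.Lc X (G.total H)
  klt : G.Klt X
  dim : G.dim X = 2 * k + 1
  cl : ∀ i, G.cl (H i) = h
  kb : G.KB Δ = h + ε • a
  kbH : G.KB (G.total H) = h + ε • a
  span : ∀ c : G.N1 X, ∃ x y : ℝ, c = x • a + y • h
  pseff : a ∈ G.Pseff X
  ne : a ≠ 0
  ray : ∃ γ : G.N1 X →ₗ[ℝ] ℝ, G.Extremal γ ∧ γ a ≤ 0 ∧ 0 < γ (G.KB Δ)
  mem : ∀ i, G.In (G.im s) (H i)

/-- Every step is a flip which does not contract the image of `V`. -/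
theorem step_inv (hT : Textbook G) (hM : MarkFacts G) (hP : Published G) {V : G.Var} {k : ℕ}
    {ε : ℝ} (hk : 1 ≤ k) (hV : ¬ G.Uniruled V) (hdV : G.dim V = k) (hε : 0 < ε) {X X₁ : G.Var}
    {Δ : G.Bd X} {H : Fin (k + 1) → G.Prm X} {s : G.Mark V X} {a h : G.N1 X}
    (I : Inv V k ε Δ H s a h) (e : G.Step X X₁) (neg : G.ray e (G.KB Δ) < 0) :
    ∃ (H' : Fin (k + 1) → G.Prm X₁) (s' : G.Mark V X₁) (a' h' : G.N1 X₁),
      Inv V k ε (G.pushB e Δ) H' s' a' h' ∧
      G.res s (G.KB Δ) - G.res s' (G.KB (G.pushB e Δ)) ∈ G.bEff V := by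
  classical
  have hR := hT.step_ray e
  obtain ⟨γ, hγ, hγa, hγL⟩ := I.ray
  -- the ray is positive on `a`
  have hRa : 0 < G.ray e a := by
    by_contra hRa
    push Not at hRa
    refine I.ne (hT.pseff_antinef I.pseff (plane hT (L := G.KB Δ) ?_ hR hγ neg hγL hRa hγa))
    intro c
    obtain ⟨x, y, rfl⟩ := I.span c
    refine ⟨x - y * ε, y, ?_⟩
    rw [I.kb, smul_add, smul_smul, sub_smul]
    abel
  have hRh : G.ray e h < 0 := by
    have h1 := neg
    rw [I.kb, map_add, map_smul, smul_eq_mul] at h1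
    nlinarith [mul_pos hε hRa]
  have hRH : ∀ i, G.ray e (G.cl (H i)) < 0 := fun i => by rw [I.cl i]; exact hRh
  have negH : G.ray e (G.KB (G.total H)) < 0 := by rw [I.kbH, ← I.kb]; exact neg
  -- the step is a flip
  have hflip : G.Flip e := by
    by_contra hf
    obtain ⟨P, -, hPP⟩ := hT.div_prime e hf
    have h01 : H 0 ≠ H (Fin.last k) := by
      intro h
      have := I.inj h
      have h2 := congrArg Fin.val this
      simp at h2
      omega
    by_cases h0 : H 0 = P
    · have := hPP (H (Fin.last k)) (by rw [← h0]; exact h01.symm)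
      linarith [hRH (Fin.last k)]
    · have := hPP (H 0) h0
      linarith [hRH 0]
  choose H' hH' using fun i => hT.flip_prime e hflip (H i)
  -- the flipping locus does not contain the image of `V`
  have hloc : ∀ T, G.Comp e T → ¬ G.le (G.im s) T := by
    intro T hTc hle
    have hcard : (Finset.univ.image H).card + G.sdim T ≤ G.dim X := by
      refine hP.kollar (Finset.univ.image H) I.lcH ?_
      intro P hPm
      obtain ⟨i, _, rfl⟩ := Finset.mem_image.mp hPm
      exact ⟨total_apply I.inj i, hT.comp_in e hTc (hRH i)⟩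
    rw [Finset.card_image_of_injective _ I.inj, Finset.card_univ, Fintype.card_fin, I.dim] at hcard
    have hd : G.sdim T ≤ G.sdim (G.im s) := by
      rw [hM.mark_dim, hdV]; omega
    have hST := hT.sub_eq hle hd
    apply hV
    apply hM.mark_uni s
    rw [hST]
    exact hP.kawamata e I.klt I.lc neg hTc
  obtain ⟨s', hs', hres⟩ := hM.mark_step e s hloc
  obtain ⟨γ', hγ', hpush⟩ := hT.flip_ray e hflip
  have hKB : G.KB (G.pushB e Δ) = G.push e (G.KB Δ) := push_KB hT e Δ
  have hbdH : G.pushB e (G.total H) = G.total H' := pushB_total e hH'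
  refine ⟨H', s', G.push e a, G.push e h, ?_, ?_⟩
  · refine
      { inj := ?_
        lc := hT.step_lc e I.lc neg
        lcH := by rw [← hbdH]; exact hT.step_lc e I.lcH negH
        klt := hT.step_klt e I.klt I.lc neg
        dim := by rw [hT.step_dim e, I.dim]
        cl := fun i => by rw [← hT.step_some e (hH' i), I.cl i]
        kb := by rw [hKB, I.kb, map_add, map_smul]
        kbH := by rw [← hbdH, push_KB hT, I.kbH, map_add, map_smul]
        span := ?_
        pseff := hT.step_pseff e I.pseff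
        ne := ?_
        ray := ⟨γ', hγ', by rw [hpush]; linarith, by rw [hKB, hpush]; linarith⟩
        mem := fun i => hs' _ _ (hH' i) (I.mem i) }
    · intro i j hij
      apply I.inj
      refine hT.step_inj e (hH' i) ?_
      rw [hij]; exact hH' j
    · intro c'
      obtain ⟨c, rfl⟩ := (hT.flip_bij e hflip).2 c'
      obtain ⟨x, y, rfl⟩ := I.span c
      exact ⟨x, y, by rw [map_add, map_smul, map_smul]⟩
    · intro h0
      apply I.ne
      apply (hT.flip_bij e hflip).1
      rw [h0, map_zero]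
  · rw [hKB]
    exact hres _ neg.le

theorem kb_pseff (hT : Textbook G) {V : G.Var} {k : ℕ} {ε : ℝ} (hε : 0 < ε) {X : G.Var}
    {Δ : G.Bd X} {H : Fin (k + 1) → G.Prm X} {s : G.Mark V X} {a h : G.N1 X}
    (I : Inv V k ε Δ H s a h) : G.KB Δ ∈ G.Pseff X := by
  rw [I.kb, ← I.cl 0]
  exact hT.pseff_add (hT.pseff_prime _) (hT.pseff_smul hε.le I.pseff)

/-- Along a terminating program, the restriction to `V` of the log canonical class is nef plus
effective. -/
theorem run_decomposition (hT : Textbook G) (hM : MarkFacts G) (hP : Published G) {V : G.Var}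
    {k : ℕ} {ε : ℝ} (hk : 1 ≤ k) (hV : ¬ G.Uniruled V) (hdV : G.dim V = k) (hε : 0 < ε)
    {X X' : G.Var} {Δ : G.Bd X} {Δ' : G.Bd X'} (r : G.Run X Δ X' Δ')
    (hfin : G.Nef (G.KB Δ') ∨ ∃ f : G.Fib X', G.AntiAmple f (G.KB Δ')) :
    ∀ (H : Fin (k + 1) → G.Prm X) (s : G.Mark V X) (a h : G.N1 X), Inv V k ε Δ H s a h →
      ∃ P ∈ G.bNef V, ∃ E ∈ G.bEff V, G.res s (G.KB Δ) = P + E := by
  induction r with
  | refl X Δ =>
    intro H s a h I
    rcases hfin with hn | ⟨f, hf⟩
    · exact ⟨_, hM.mark_nef s hn, 0, hM.bEff_zero V, by rw [add_zero]⟩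
    · exfalso
      obtain ⟨γ, hγ, hγ0, hγL⟩ := hT.fib_curve f (kb_pseff hT hε I)
      exact absurd (hf γ hγ hγ0) (not_lt.mpr hγL)
  | cons e neg r ih =>
    intro H s a h I
    obtain ⟨H', s', a', h', I', hd⟩ := step_inv hT hM hP hk hV hdV hε I e neg
    obtain ⟨P, hPn, E, hE, heq⟩ := ih hfin H' s' a' h' I'
    refine ⟨P, hPn, _, hM.bEff_add hE hd, ?_⟩
    rw [← add_assoc, ← heq]
    abel

/-- A smooth projective variety of dimension `k ≥ 2` with pseudo-effective canonical class has a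
weak Zariski decomposition, if Q1 holds for the prime pairs of its dimension and of unbounded
degrees. -/
theorem weakZariski (hT : Textbook G) (hM : MarkFacts G) (hE : ExtractionFacts G)
    (hX : ProjectiveFacts G) (hP : Published G) {V : G.Var} {k : ℕ} (hk : 2 ≤ k)
    (hsm : G.Smooth V) (hdV : G.dim V = k) (hK : G.K V ∈ G.Pseff V)
    (hU : ∀ m : ℕ, ∃ d, m ≤ d ∧ ∀ (Y : G.Var) (Δ : G.Bd Y), G.PrimePair k d Y Δ →
      G.Q1 Y Δ) : G.WeakZariski V := by
  classical
  have hV : ¬ G.Uniruled V := fun h => hM.uni_K hsm h hK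
  obtain ⟨d₀, hd₀⟩ := hX.linkage hsm hdV hk
  obtain ⟨d, hd, hQ⟩ := hU (max d₀ 5)
  obtain ⟨H, S, v, hv, Γ, ⟨hinj, hcl, hord, hlc⟩, ⟨hclS, hordS, hlcS⟩, hdisc, hKV, hmark⟩ :=
    hd₀ d (le_trans (le_max_left _ _) hd)
  have hd5 : 5 ≤ d := le_trans (le_max_right _ _) hd
  have hdisc1 : G.disc v (G.total H) = -1 := by
    rw [disc_total v hord, hdisc]; push_cast; ring
  have hdiscS : G.disc v (Finsupp.single S 1) = -1 := by
    unfold Geometry.disc
    rw [Finsupp.sum_single_index (by simp), hordS, hdisc]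
    push_cast
    ring
  obtain ⟨Y, f, rfl, hY⟩ := hP.extract v (hX.pp_klt _) hlc hdisc1
  obtain ⟨s, hs, hresH, T, hTx, hΓ⟩ := hmark f rfl
  set a : G.N1 Y := G.pull f (G.hyp (2 * k + 1)) with ha
  set F : G.N1 Y := G.cl (G.exc f) with hF
  set h : G.N1 Y := (d : ℝ) • a - F with hh
  set Δ : G.Bd Y := Finsupp.single (G.strict f S) 1 with hΔ
  have hlcY : G.Lc Y Δ := by
    have := hE.ext_lc f hlcS hdiscS
    rwa [Finsupp.mapDomain_single] at this
  have hlcH : G.Lc Y (G.total fun i => G.strict f (H i)) := by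
    have := hE.ext_lc f hlc hdisc1
    unfold Geometry.total at this ⊢
    rwa [Finsupp.mapDomain_finsetSum, Finset.sum_congr rfl fun i _ =>
      Finsupp.mapDomain_single] at this
  have hclY : ∀ i, G.cl (G.strict f (H i)) = h := by
    intro i
    rw [hE.ext_cl, hcl i, hord i, map_smul]
    simp [hh, ha, hF]
  have hclSY : G.cl (G.strict f S) = ((k : ℝ) + 1) • h := by
    rw [hE.ext_cl, hclS, hordS, map_smul, hh]
    push_cast
    module
  have hKY : G.K Y = (-(((2 * k + 1 : ℕ) : ℝ) + 1)) • a + (k : ℝ) • F := by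
    rw [hE.ext_K, hX.pp_K, map_smul, hdisc]
    simp [ha, hF]
  set ε : ℝ := (k : ℝ) * d - (2 * k + 2) with hε
  have hεpos : 0 < ε := by
    have h1 : (2 : ℝ) ≤ k := by exact_mod_cast hk
    have h2 : (5 : ℝ) ≤ d := by exact_mod_cast hd5
    nlinarith
  have hKB : G.KB Δ = h + ε • a := by
    unfold Geometry.KB Geometry.clB
    rw [hΔ, Finsupp.sum_single_index (by simp), hclSY, hKY, hh, hε]
    push_cast
    module
  have hKBH : G.KB (G.total fun i => G.strict f (H i)) = h + ε • a := by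
    unfold Geometry.KB
    rw [clB_total, Finset.sum_congr rfl fun i _ => hclY i, hKY]
    simp only [Finset.sum_const, Finset.card_univ, Fintype.card_fin, hh, hε]
    rw [← Nat.cast_smul_eq_nsmul ℝ]
    push_cast
    module
  have hKB' : G.KB Δ = (((k : ℝ) + 1) * d - (2 * k + 2)) • a - F := by
    rw [hKB, hh, hε]
    module
  have hbig : G.Big (G.KB Δ) := by
    obtain ⟨A, hA, hAp⟩ := hE.ext_big f (a := ε • G.hyp (2 * k + 1)) (fun γ hγ hγ0 => by
      rw [map_smul, smul_eq_mul]; exact mul_pos hεpos (hX.pp_ample _ γ hγ hγ0))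
    refine ⟨A, hA, ?_⟩
    have h1 := hT.pseff_add (hT.pseff_prime (G.strict f (H 0))) hAp
    rw [hclY 0, map_smul, ← ha] at h1
    rw [hKB, add_sub_assoc]
    exact h1
  obtain ⟨X', Δ', hrun, _, hfin⟩ := hQ Y Δ ⟨hY, hlcY, hbig, f, S, hclS, hordS, hdisc, rfl⟩
  obtain ⟨γ, hγ, hγ0, hγF⟩ := hE.ext_ray f
  have hane : G.hyp (2 * k + 1) ≠ 0 := hX.pp_hyp _ (by omega)
  have I : Inv V k ε Δ (fun i => G.strict f (H i)) s a h :=
    { inj := fun i j hij => hinj (hE.ext_inj f hij)
      lc := hlcY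
      lcH := hlcH
      klt := hY
      dim := by rw [hE.ext_dim f, hX.pp_dim]
      cl := hclY
      kb := hKB
      kbH := hKBH
      span := by
        intro c
        obtain ⟨x, t, rfl⟩ := hE.ext_span f c
        obtain ⟨u, rfl⟩ := hX.pp_span _ x
        refine ⟨u + t * d, -t, ?_⟩
        rw [map_smul, hh]
        module
      pseff := hE.ext_pseff f (hX.pp_pseff _)
      ne := by
        intro h0
        apply hane
        apply hE.ext_pull f
        rw [map_zero]
        exact h0
      ray := ⟨γ, hγ, (hγ0 _).le, by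
        rw [hKB', map_sub, map_smul, ha, hγ0, smul_zero, zero_sub]
        linarith⟩
      mem := hs }
  obtain ⟨P, hPn, E, hEE, heq⟩ :=
    run_decomposition hT hM hP (by omega) hV hdV hεpos hrun hfin _ _ _ _ I
  have hfinal : G.toB V (G.K V) = P + E + (-T) := by
    rw [← heq, hKV, map_sub, map_smul, hΓ, hKB', map_sub, map_smul, ha, hresH]
    abel
  exact ⟨P, hPn, E + (-T), hM.negativity hPn hEE (hM.bExc_neg hTx) hfinal, by
    rw [hfinal]; abel⟩

end Pool.Agent.Helper80.MMP
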